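import Mathlib

/-!
Numbers composed of the primes of a given number `Q`, and powers up to such numbers.
-/

set_option autoImplicit false

namespace Pool.Agent.Run7.h880.SU

open Finset

/-- all prime factors of `m` divide `Q` -/
def QU (Q m : ℕ) : Prop := ∃ k : ℕ, m ∣ Q ^ k

theorem QU.pos {Q m : ℕ} (hQ : 1 ≤ Q) (h : QU Q m) : 1 ≤ m := by
  obtain ⟨k, hk⟩ := h
  exact Nat.pos_of_dvd_of_pos hk (Nat.pow_pos hQ)

theorem QU.mul {Q m n : ℕ} (h : QU Q m) (h' : QU Q n) : QU Q (m * n) := by
  obtain ⟨k, hk⟩ := h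
  obtain ⟨k', hk'⟩ := h'
  exact ⟨k + k', by rw [pow_add]; exact mul_dvd_mul hk hk'⟩

theorem QU.pow {Q m : ℕ} (h : QU Q m) (n : ℕ) : QU Q (m ^ n) := by
  obtain ⟨k, hk⟩ := h
  exact ⟨k * n, by rw [pow_mul]; exact pow_dvd_pow_of_dvd hk n⟩

theorem QU.prime_dvd {Q m r : ℕ} (h : QU Q m) (hr : r.Prime) (hrm : r ∣ m) : r ∣ Q := by
  obtain ⟨k, hk⟩ := h
  exact hr.dvd_of_dvd_pow (hrm.trans hk)

theorem qu_of_primes {Q m : ℕ} (hm : m ≠ 0) (hQ : Q ≠ 0) (h : ∀ r : ℕ, r.Prime → r ∣ m → r ∣ Q) : QU Q m := by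
  refine ⟨m, ?_⟩
  rw [← Nat.factorization_prime_le_iff_dvd hm (pow_ne_zero _ hQ)]
  intro r hr
  rw [Nat.factorization_pow, Finsupp.smul_apply, smul_eq_mul]
  by_cases hrm : r ∣ m
  · have h1 : 1 ≤ Q.factorization r := (Nat.Prime.dvd_iff_one_le_factorization hr hQ).1 (h r hr hrm)
    have h2 : m.factorization r < m := Nat.factorization_lt r hm
    calc m.factorization r ≤ m * 1 := by omega
      _ ≤ m * Q.factorization r := Nat.mul_le_mul_left _ h1
  · rw [Nat.factorization_eq_zero_of_not_dvd hrm]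
    exact Nat.zero_le _

open Classical in
/-- the products of powers of the primes of `R` with exponents smaller than `l` -/
noncomputable def CS (R l : ℕ) : Finset ℕ :=
  (R.primeFactors.pi fun _ => range l).image fun f => ∏ r ∈ R.primeFactors.attach, (r : ℕ) ^ f r r.2

theorem card_CS (R l : ℕ) : (CS R l).card ≤ l ^ R.primeFactors.card := by
  classical
  unfold CS
  refine card_image_le.trans ?_
  rw [card_pi]
  simp only [card_range, prod_const]
  exact le_rfl

theorem mem_CS {R l : ℕ} (f : ℕ → ℕ) (hf : ∀ r ∈ R.primeFactors, f r < l) :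
    (∏ r ∈ R.primeFactors, r ^ f r) ∈ CS R l := by
  classical
  unfold CS
  rw [mem_image]
  refine ⟨fun r _ => f r, ?_, ?_⟩
  · rw [mem_pi]
    intro r hr
    rw [mem_range]
    exact hf r hr
  · exact Finset.prod_attach R.primeFactors (fun r => r ^ f r)

theorem CS_bound {R l c : ℕ} (hR : 1 ≤ R) (h : c ∈ CS R l) : c ≤ R ^ (l - 1) ∧ QU R c := by
  classical
  unfold CS at h
  rw [mem_image] at h
  obtain ⟨f, hf, rfl⟩ := h
  rw [mem_pi] at hf
  have h1 : ∏ r ∈ R.primeFactors.attach, (r : ℕ) ^ f r r.2 ∣ R ^ (l - 1) := by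
    have h2 : ∏ r ∈ R.primeFactors.attach, (r : ℕ) ^ f r r.2 ∣
        ∏ r ∈ R.primeFactors.attach, (r : ℕ) ^ (l - 1) := by
      refine Finset.prod_dvd_prod_of_dvd _ _ fun r _ => ?_
      refine pow_dvd_pow _ ?_
      have := hf r r.2
      rw [mem_range] at this
      omega
    refine h2.trans ?_
    rw [Finset.prod_pow]
    refine pow_dvd_pow_of_dvd ?_ _
    rw [Finset.prod_attach R.primeFactors (fun r => r)]
    exact Nat.prod_primeFactors_dvd R
  exact ⟨Nat.le_of_dvd (Nat.pow_pos hR) h1, ⟨l - 1, h1⟩⟩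

theorem split_pow {N l R : ℕ} (hN : N ≠ 0) (hl : 1 ≤ l) (hR : R ≠ 0)
    (h : ∀ r : ℕ, r.Prime → ¬ r ∣ R → l ∣ N.factorization r) : ∃ c ∈ CS R l, ∃ w : ℕ, N = c * w ^ l := by
  classical
  refine ⟨∏ r ∈ R.primeFactors, r ^ (N.factorization r % l), mem_CS _ fun r _ => Nat.mod_lt _ hl,
    ∏ r ∈ N.primeFactors, r ^ (N.factorization r / l), ?_⟩
  have h1 : N = ∏ r ∈ N.primeFactors, r ^ N.factorization r :=
    (Nat.prod_factorization_pow_eq_self hN).symm
  have h2 : ∏ r ∈ R.primeFactors, r ^ (N.factorization r % l) =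
      ∏ r ∈ N.primeFactors, r ^ (N.factorization r % l) := by
    have e1 : ∏ r ∈ R.primeFactors, r ^ (N.factorization r % l) =
        ∏ r ∈ R.primeFactors ∪ N.primeFactors, r ^ (N.factorization r % l) := by
      refine Finset.prod_subset Finset.subset_union_left fun r hr hr' => ?_
      rw [Finset.mem_union] at hr
      rcases hr with hr | hr
      · exact absurd hr hr'
      · have hp := Nat.prime_of_mem_primeFactors hr
        have hnd : ¬ r ∣ R := fun hd => hr' (Nat.mem_primeFactors.2 ⟨hp, hd, hR⟩)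
        rw [Nat.mod_eq_zero_of_dvd (h r hp hnd), pow_zero]
    have e2 : ∏ r ∈ N.primeFactors, r ^ (N.factorization r % l) =
        ∏ r ∈ R.primeFactors ∪ N.primeFactors, r ^ (N.factorization r % l) := by
      refine Finset.prod_subset Finset.subset_union_right fun r _ hr' => ?_
      have : N.factorization r = 0 := by
        by_contra h0
        exact hr' (by rw [← Nat.support_factorization]; exact Finsupp.mem_support_iff.2 h0)
      rw [this, Nat.zero_mod, pow_zero]
    rw [e1, e2]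
  rw [h2, ← Finset.prod_pow, ← Finset.prod_mul_distrib]
  conv_lhs => rw [h1]
  refine Finset.prod_congr rfl fun r _ => ?_
  rw [← pow_mul, ← pow_add]
  congr 1
  rw [mul_comm (N.factorization r / l), Nat.mod_add_div]

/-- a number composed of the primes of `Q` is an `l`-th power times a number of `CS Q l` -/
theorem QU.split {Q m l : ℕ} (hQ : 1 ≤ Q) (h : QU Q m) (hl : 1 ≤ l) :
    ∃ c ∈ CS Q l, ∃ w : ℕ, m = c * w ^ l := by
  refine split_pow (by have := h.pos hQ; omega) hl (by omega) fun r hr hrQ => ?_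
  rw [Nat.factorization_eq_zero_of_not_dvd fun hd => hrQ (h.prime_dvd hr hd)]
  exact dvd_zero _

/-- small numbers composed of the primes of `Q` -/
theorem QU.mem_CS {Q m X : ℕ} (hQ : 1 ≤ Q) (h : QU Q m) (hm : m ≤ X) : m ∈ CS Q (Nat.log 2 X + 1) := by
  have hm0 : m ≠ 0 := by
    have := h.pos hQ
    omega
  have h1 : m = ∏ r ∈ Q.primeFactors, r ^ m.factorization r := by
    conv_lhs => rw [← Nat.prod_factorization_pow_eq_self hm0]
    refine Finset.prod_subset ?_ ?_
    · intro r hr
      have hp := Nat.prime_of_mem_primeFactors hr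
      exact Nat.mem_primeFactors.2 ⟨hp, h.prime_dvd hp (Nat.dvd_of_mem_primeFactors hr), by omega⟩
    · intro r _ hr'
      have : m.factorization r = 0 := by
        by_contra h0
        exact hr' (Finsupp.mem_support_iff.2 h0)
      rw [this]
      exact pow_zero r
  rw [h1]
  refine SU.mem_CS _ fun r hr => ?_
  have hp := Nat.prime_of_mem_primeFactors hr
  have h2 : 2 ^ m.factorization r ≤ X := by
    calc 2 ^ m.factorization r ≤ r ^ m.factorization r := Nat.pow_le_pow_left hp.two_le _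
      _ ≤ m := Nat.ordProj_le r hm0
      _ ≤ X := hm
  have := Nat.le_log_of_pow_le (by norm_num : 1 < 2) h2
  omega

end Pool.Agent.Run7.h880.SU
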