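import Mathlib
import Pool.Agent.Run7.h880.Interp2
import Pool.Agent.Run7.h880.SU.Pre

/-!
Few integers `t` in a short interval are such that all `t + d i` are perfect powers times given integers.
-/

set_option autoImplicit false

namespace Pool.Agent.Run7.h880.SU

open Finset Filter Topology Pool.Agent.Run7.h880

/-- the number of the points in a short interval -/
theorem few_points3 {m E : ℕ} {b d c : Fin m → ℕ} (hcc : ∀ i, 1 ≤ c i) (hm : 1 ≤ m) (hE2 : 2 ≤ E)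
    (hE : ∀ i, E ≤ b i) (hb : ∀ i, 2 ≤ b i)
    (hco : Pairwise fun i j => Nat.Coprime (b i) (b j)) (hw : ∑ i, ((E - 1 : ℕ) : ℝ) / b i ≤ 1 / 2)
    {t₀ Y : ℝ} {q : ℕ} (hq : 1 ≤ q) (ht₀ : 0 < t₀) (hY1 : 1 ≤ Y) (hY : ∀ i, t₀ + d i ≤ Y)
    (hqY : (3 * ((E : ℝ) ^ m) ^ 4) * Y < (q : ℝ) ^ (E ^ m)) (T : Finset ℕ)
    (hT : ∀ t ∈ T, |(t : ℝ) - t₀| ≤ t₀ / (2 * q) ∧ ∀ i, ∃ x : ℕ, c i * x ^ b i = t + d i) :
    T.card ≤ m * ∏ i, b i := by
  classical
  have hb0 : ∀ i, (b i : ℝ) ≠ 0 := fun i => by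
    have := hb i
    positivity
  rcases rel_or_det T (fun (t : ℕ) (S : Fin m → Fin E) => mono b d 0 (nat' S) t) with h | h
  · obtain ⟨c', hc', h⟩ := h
    exact zero_est2 hE hb hco c' hc' T h
  exfalso
  obtain ⟨τ, hτ, hdet⟩ := h
  -- the entries are integers up to the factors `ρ i = c i ^ (1 / b i)`
  obtain ⟨ρ, hρ⟩ : ∃ ρ : Fin m → ℝ, ρ = fun i => (c i : ℝ) ^ ((1 : ℝ) / b i) := ⟨_, rfl⟩
  have hρ1 : ∀ i, 1 ≤ ρ i := by
    intro i
    rw [hρ]
    exact Real.one_le_rpow (by exact_mod_cast hcc i) (by positivity)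
  have hxi : ∀ t ∈ T, ∀ i, ∃ x : ℕ, xi b d i t = ρ i * x := by
    intro t ht i
    obtain ⟨x, hx⟩ := (hT t ht).2 i
    refine ⟨x, ?_⟩
    unfold xi
    have h1 : ((t : ℝ) + d i) = (c i : ℝ) * (x : ℝ) ^ (b i : ℝ) := by
      rw [Real.rpow_natCast]
      exact_mod_cast hx.symm
    rw [h1, Real.mul_rpow (Nat.cast_nonneg _) (by positivity), ← Real.rpow_mul (Nat.cast_nonneg x),
      mul_one_div_cancel (hb0 i), Real.rpow_one, hρ]
  have hint : ∀ S S' : Fin m → Fin E, ∃ z : ℤ,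
      mono b d 0 (nat' S) (τ S') = (∏ i, ρ i ^ nat' S i) * z := by
    intro S S'
    have h1 := hxi (τ S') (hτ S')
    choose x hx using h1
    refine ⟨((∏ i, x i ^ nat' S i : ℕ) : ℤ), ?_⟩
    unfold mono
    rw [pow_zero, one_mul]
    push_cast
    rw [← Finset.prod_mul_distrib]
    exact Finset.prod_congr rfl fun i _ => by rw [hx i, mul_pow]
  choose z hz using hint
  obtain ⟨κ, hκ⟩ : ∃ κ : ℝ, κ = ∏ S : Fin m → Fin E, ∏ i, ρ i ^ nat' S i := ⟨_, rfl⟩
  have hκ1 : 1 ≤ κ := by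
    rw [hκ]
    refine Finset.prod_induction _ (fun y : ℝ => 1 ≤ y) (fun _ _ => one_le_mul_of_one_le_of_one_le)
      le_rfl fun S _ => ?_
    exact Finset.prod_induction _ (fun y : ℝ => 1 ≤ y) (fun _ _ => one_le_mul_of_one_le_of_one_le)
      le_rfl fun i _ => one_le_pow₀ (hρ1 i)
  have hdetz : Matrix.det (Matrix.of fun S S' => mono b d 0 (nat' S) (τ S')) =
      κ * ((Matrix.det (Matrix.of z) : ℤ) : ℝ) := by
    have h1 : (Matrix.of fun S S' => mono b d 0 (nat' S) (τ S') : Matrix _ _ ℝ) =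
        Matrix.of fun S S' => (∏ i, ρ i ^ nat' S i) * ((Matrix.of z).map (Int.castRingHom ℝ)) S S' := by
      ext S S'
      rw [Matrix.of_apply, hz]
      rfl
    rw [h1, Matrix.det_mul_column, ← hκ, ← RingHom.mapMatrix_apply, ← RingHom.map_det]
    rfl
  have hge : (1 : ℝ) ≤ |Matrix.det (Matrix.of fun S S' => mono b d 0 (nat' S) (τ S'))| := by
    rw [hdetz] at hdet ⊢
    have h1 : Matrix.det (Matrix.of z) ≠ 0 := by
      intro h0
      rw [h0] at hdet
      exact hdet (by rw [Int.cast_zero, mul_zero])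
    have h2 : 1 ≤ |Matrix.det (Matrix.of z)| := Int.one_le_abs h1
    have h3 : (1 : ℝ) ≤ |((Matrix.det (Matrix.of z) : ℤ) : ℝ)| := by exact_mod_cast h2
    rw [abs_mul, abs_of_nonneg (by linarith : (0 : ℝ) ≤ κ)]
    exact one_le_mul_of_one_le_of_one_le hκ1 h3
  -- the upper bound
  have hqR : (1 : ℝ) ≤ q := by exact_mod_cast hq
  obtain ⟨R, hR⟩ : ∃ R : ℝ, R = t₀ / 2 := ⟨_, rfl⟩
  have hR0 : 0 < R := by
    rw [hR]
    positivity
  obtain ⟨β, hβ⟩ : ∃ β : Fin m → ℝ, β = fun i =>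
    (t₀ + d i) ^ ((1 : ℝ) / b i) * (1 + 1 / b i) := ⟨_, rfl⟩
  have hβ0 : ∀ i, 0 < β i := by
    intro i
    rw [hβ]
    have : 0 < t₀ + d i := by positivity
    have h2 := Real.rpow_pos_of_pos this ((1 : ℝ) / b i)
    have h3 : (0 : ℝ) < 1 + 1 / b i := by
      have := hb i
      positivity
    positivity
  have hser : ∀ S : Fin m → Fin E, Ser (fun u => ∏ i, ((t₀ + d i + u) ^ ((1 : ℝ) / b i)) ^ nat' S i) R
      (∏ i, β i ^ nat' S i) := by
    intro S
    refine Ser.prod univ hR0.le fun i _ => ?_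
    refine Ser.pow hR0.le ?_ _
    rw [hβ]
    refine root_ser (by have := hb i; omega) hR0 ?_
    rw [hR]
    have : (0 : ℝ) ≤ d i := Nat.cast_nonneg _
    linarith
  have hsm := det_small (u := fun S : Fin m → Fin E => (τ S : ℝ) - t₀) (r := t₀ / (2 * q))
    (R := R) (by positivity) hR0 (by
      rw [hR]
      exact div_le_div_of_nonneg_left ht₀.le (by norm_num) (by linarith)) hser
    (fun S => (hT _ (hτ S)).1)
  have heq : (Matrix.of fun (S S' : Fin m → Fin E) =>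
      ∏ i, ((t₀ + d i + ((τ S' : ℝ) - t₀)) ^ ((1 : ℝ) / b i)) ^ nat' S i : Matrix _ _ ℝ) =
      Matrix.of fun S S' => mono b d 0 (nat' S) (τ S') := by
    ext S S'
    rw [Matrix.of_apply, Matrix.of_apply]
    unfold mono xi
    rw [pow_zero, one_mul]
    refine Finset.prod_congr rfl fun i _ => ?_
    congr 2
    ring
  rw [heq] at hsm
  have h1le := hge.trans hsm
  obtain ⟨M, hM⟩ : ∃ M : ℕ, M = E ^ m := ⟨_, rfl⟩
  have hcard : Fintype.card (Fin m → Fin E) = M := by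
    rw [Fintype.card_fun, Fintype.card_fin, Fintype.card_fin, hM]
  rw [hcard] at h1le
  have hM2 : 2 ≤ M := by
    rw [hM]
    calc 2 ≤ E ^ 1 := by rw [pow_one]; exact hE2
      _ ≤ E ^ m := Nat.pow_le_pow_right (by omega) hm
  have hrR : t₀ / (2 * q) / R = (q : ℝ)⁻¹ := by
    rw [hR]
    field_simp
  rw [hrR] at h1le
  -- the product of the bounds
  obtain ⟨Q, hQ⟩ : ∃ Q : ℝ, Q = ∏ S : Fin m → Fin E, ∏ i, β i ^ nat' S i := ⟨_, rfl⟩
  rw [← hQ] at h1le
  have hQ0 : 0 ≤ Q := by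
    rw [hQ]
    exact Finset.prod_nonneg fun S _ => Finset.prod_nonneg fun i _ => by
      have := hβ0 i
      positivity
  have hQ2 : Q ^ 2 = (∏ i, β i ^ (E - 1)) ^ M := by
    have hbij : Function.Bijective fun S : Fin m → Fin E => fun i => (S i).rev := by
      refine Function.Involutive.bijective fun S => ?_
      funext i
      exact Fin.rev_rev _
    have e1 : Q = ∏ S : Fin m → Fin E, ∏ i, β i ^ (E - 1 - nat' S i) := by
      rw [hQ]
      refine (Function.Bijective.prod_comp hbij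
        (fun S : Fin m → Fin E => ∏ i, β i ^ nat' S i)).symm.trans ?_
      refine Finset.prod_congr rfl fun S _ => Finset.prod_congr rfl fun i _ => ?_
      congr 1
      unfold nat'
      rw [Fin.val_rev]
      omega
    calc Q ^ 2 = Q * Q := sq Q
      _ = (∏ S : Fin m → Fin E, ∏ i, β i ^ nat' S i) *
          ∏ S : Fin m → Fin E, ∏ i, β i ^ (E - 1 - nat' S i) := by
          rw [← hQ, ← e1]
      _ = ∏ _S : Fin m → Fin E, ∏ i, β i ^ (E - 1) := by
          rw [← Finset.prod_mul_distrib]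
          refine Finset.prod_congr rfl fun S _ => ?_
          rw [← Finset.prod_mul_distrib]
          refine Finset.prod_congr rfl fun i _ => ?_
          rw [← pow_add]
          congr 1
          have := (S i).2
          unfold nat'
          omega
      _ = (∏ i, β i ^ (E - 1)) ^ M := by
          rw [Finset.prod_const, Finset.card_univ, hcard]
  -- the size of the product of all `β i`
  obtain ⟨γ, hγ⟩ : ∃ γ : ℝ, γ = ∏ i, β i ^ (E - 1) := ⟨_, rfl⟩
  rw [← hγ] at hQ2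
  have hγ0 : 0 ≤ γ := by
    rw [hγ]
    exact Finset.prod_nonneg fun i _ => by
      have := hβ0 i
      positivity
  have hγY : γ ^ 2 ≤ 3 * Y := by
    have hY0 : 0 < Y := by linarith
    have h2 : γ ≤ Y ^ ((1 : ℝ) / 2) * Real.exp (1 / 2) := by
      rw [hγ, hβ]
      simp only [mul_pow]
      rw [Finset.prod_mul_distrib]
      refine mul_le_mul ?_ ?_ ?_ (by positivity)
      · calc ∏ i, ((t₀ + (d i : ℝ)) ^ ((1 : ℝ) / b i)) ^ (E - 1)
            ≤ ∏ i, Y ^ (((E - 1 : ℕ) : ℝ) / b i) := by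
              refine Finset.prod_le_prod (fun i _ => by positivity) fun i _ => ?_
              have e1 : Y ^ (((E - 1 : ℕ) : ℝ) / b i) = (Y ^ ((1 : ℝ) / b i)) ^ (E - 1) := by
                rw [← Real.rpow_natCast (Y ^ ((1 : ℝ) / b i)), ← Real.rpow_mul hY0.le]
                congr 1
                ring
              rw [e1]
              refine pow_le_pow_left₀ (by positivity) ?_ _
              exact Real.rpow_le_rpow (by positivity) (hY i) (by positivity)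
          _ = Y ^ (∑ i, ((E - 1 : ℕ) : ℝ) / b i) := by rw [Real.rpow_sum_of_pos hY0]
          _ ≤ Y ^ ((1 : ℝ) / 2) := Real.rpow_le_rpow_of_exponent_le hY1 hw
      · calc ∏ i, (1 + 1 / (b i : ℝ)) ^ (E - 1) ≤ ∏ i, Real.exp (((E - 1 : ℕ) : ℝ) / (b i : ℝ)) := by
              refine Finset.prod_le_prod (fun i _ => by positivity) fun i _ => ?_
              have e1 : Real.exp (((E - 1 : ℕ) : ℝ) / (b i : ℝ)) = Real.exp (1 / (b i : ℝ)) ^ (E - 1) := by
                rw [← Real.exp_nat_mul]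
                congr 1
                ring
              rw [e1]
              refine pow_le_pow_left₀ (by positivity) ?_ _
              have := Real.add_one_le_exp (1 / (b i : ℝ))
              linarith
          _ = Real.exp (∑ i, ((E - 1 : ℕ) : ℝ) / (b i : ℝ)) := by rw [Real.exp_sum]
          _ ≤ Real.exp (1 / 2) := Real.exp_le_exp.2 hw
      · exact Finset.prod_nonneg fun i _ => by positivity
    have h3 : γ ^ 2 ≤ (Y ^ ((1 : ℝ) / 2) * Real.exp (1 / 2)) ^ 2 := pow_le_pow_left₀ hγ0 h2 2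
    refine h3.trans ?_
    rw [mul_pow, ← Real.rpow_natCast (Y ^ ((1 : ℝ) / 2)), ← Real.rpow_mul hY0.le,
      ← Real.exp_nat_mul]
    norm_num
    have h4 : Real.exp 1 ≤ 3 := by
      have := Real.exp_one_lt_d9
      linarith
    nlinarith
  -- conclusion
  have hqi : (0 : ℝ) < (q : ℝ)⁻¹ := by positivity
  obtain ⟨K, hK⟩ : ∃ K, M * (M - 1) / 2 = K ∧ K * 2 = M * (M - 1) := by
    refine ⟨_, rfl, Nat.div_mul_cancel ?_⟩
    exact (Nat.even_mul_pred_self M).two_dvd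
  rw [hK.1] at h1le
  have hfac : ((M.factorial : ℕ) : ℝ) ≤ (M : ℝ) ^ M := by
    exact_mod_cast Nat.factorial_le_pow M
  have h5 : (1 : ℝ) ≤ ((M : ℝ) ^ 2 * ((q : ℝ)⁻¹) ^ (M - 1) * γ) ^ M := by
    calc (1 : ℝ) ≤ ((M.factorial : ℝ) * ((q : ℝ)⁻¹) ^ K * Q) ^ 2 := one_le_pow₀ h1le
      _ = (M.factorial : ℝ) ^ 2 * ((q : ℝ)⁻¹) ^ (K * 2) * Q ^ 2 := by
          rw [mul_pow, mul_pow, pow_mul]
      _ ≤ ((M : ℝ) ^ M) ^ 2 * ((q : ℝ)⁻¹) ^ (K * 2) * Q ^ 2 := by
          refine mul_le_mul_of_nonneg_right (mul_le_mul_of_nonneg_right ?_ (by positivity))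
            (by positivity)
          exact pow_le_pow_left₀ (by positivity) hfac 2
      _ = ((M : ℝ) ^ 2 * ((q : ℝ)⁻¹) ^ (M - 1) * γ) ^ M := by
          rw [hQ2, hK.2, mul_pow, mul_pow, ← pow_mul, ← pow_mul, ← pow_mul, mul_comm M 2,
            mul_comm M (M - 1)]
  have h6 : (1 : ℝ) ≤ (M : ℝ) ^ 2 * ((q : ℝ)⁻¹) ^ (M - 1) * γ := by
    by_contra hcon
    push Not at hcon
    have h7 := pow_lt_one₀ (by positivity) hcon (n := M) (by omega)
    linarith
  have h7 : (q : ℝ) ^ (M - 1) ≤ (M : ℝ) ^ 2 * γ := by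
    rw [inv_pow] at h6
    have h8 : (0 : ℝ) < (q : ℝ) ^ (M - 1) := by positivity
    have h9 : (M : ℝ) ^ 2 * ((q : ℝ) ^ (M - 1))⁻¹ * γ = ((M : ℝ) ^ 2 * γ) / (q : ℝ) ^ (M - 1) := by
      field_simp
    rw [h9, le_div_iff₀ h8, one_mul] at h6
    exact h6
  have h8 : (q : ℝ) ^ M ≤ (M : ℝ) ^ 4 * (3 * Y) := by
    calc (q : ℝ) ^ M ≤ (q : ℝ) ^ ((M - 1) * 2) := pow_le_pow_right₀ hqR (by omega)
      _ = ((q : ℝ) ^ (M - 1)) ^ 2 := by rw [pow_mul]
      _ ≤ ((M : ℝ) ^ 2 * γ) ^ 2 := pow_le_pow_left₀ (by positivity) h7 2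
      _ = (M : ℝ) ^ 4 * γ ^ 2 := by ring
      _ ≤ (M : ℝ) ^ 4 * (3 * Y) := mul_le_mul_of_nonneg_left hγY (by positivity)
  rw [hM] at h8
  push_cast at h8
  linarith

theorem count_pts3 {m E : ℕ} {b d c : Fin m → ℕ} (hcc : ∀ i, 1 ≤ c i) (hm : 1 ≤ m) (hE2 : 2 ≤ E)
    (hE : ∀ i, E ≤ b i) (hb : ∀ i, 2 ≤ b i)
    (hco : Pairwise fun i j => Nat.Coprime (b i) (b j)) (hw : ∑ i, ((E - 1 : ℕ) : ℝ) / b i ≤ 1 / 2)
    {X q : ℕ} {Y : ℝ} (hX : 1 ≤ X) (hq : 1 ≤ q) (hY1 : 1 ≤ Y)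
    (hY : ∀ i, ((2 * X : ℕ) : ℝ) + d i ≤ Y)
    (hqY : (3 * ((E : ℝ) ^ m) ^ 4) * Y < (q : ℝ) ^ (E ^ m)) (T : Finset ℕ)
    (hT : ∀ t ∈ T, 1 ≤ t ∧ t ≤ 2 * X ∧ ∀ i, ∃ x : ℕ, c i * x ^ b i = t + d i) :
    T.card ≤ ((Nat.log 2 X + 2) * (2 * q)) * (m * ∏ i, b i) := by
  classical
  obtain ⟨f, hf⟩ : ∃ f : ℕ → ℕ × ℕ, f = fun t =>
    (Nat.log 2 t, ((t - 2 ^ Nat.log 2 t) * (2 * q)) / 2 ^ Nat.log 2 t) := ⟨_, rfl⟩
  have hlt : ∀ t ∈ T, 2 ^ Nat.log 2 t ≤ t ∧ t < 2 ^ (Nat.log 2 t + 1) := by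
    intro t ht
    have h1 := (hT t ht).1
    exact ⟨Nat.pow_log_le_self 2 (by omega), Nat.lt_pow_succ_log_self (by norm_num) t⟩
  refine (Finset.card_le_mul_card_image (f := f) T (m * ∏ i, b i) ?_).trans ?_
  · rintro ⟨j, i⟩ hji
    have hqR : (1 : ℝ) ≤ q := by exact_mod_cast hq
    have hj0 : (0 : ℝ) < 2 ^ j := by positivity
    have hcls : ∀ t ∈ T.filter (fun t => f t = (j, i)),
        (2 : ℝ) ^ j + 2 ^ j * i / (2 * q) ≤ t ∧
          (t : ℝ) ≤ (2 : ℝ) ^ j + 2 ^ j * i / (2 * q) + 2 ^ j / (2 * q) := by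
      intro t ht
      rw [mem_filter] at ht
      obtain ⟨htT, htf⟩ := ht
      rw [hf] at htf
      simp only [Prod.mk.injEq] at htf
      obtain ⟨e1, e2⟩ := htf
      rw [e1] at e2
      obtain ⟨g1, g2⟩ := hlt t htT
      rw [e1] at g1 g2
      have hp : 0 < 2 ^ j := by positivity
      have h1 : i * 2 ^ j ≤ (t - 2 ^ j) * (2 * q) := by
        rw [← e2]
        exact Nat.div_mul_le_self _ _
      have h2 : (t - 2 ^ j) * (2 * q) < (i + 1) * 2 ^ j := by
        have := Nat.lt_div_mul_add hp (a := (t - 2 ^ j) * (2 * q))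
        rw [e2] at this
        calc (t - 2 ^ j) * (2 * q) < i * 2 ^ j + 2 ^ j := this
          _ = (i + 1) * 2 ^ j := by ring
      have h1' : (i : ℝ) * 2 ^ j ≤ ((t : ℝ) - 2 ^ j) * (2 * q) := by
        have := (Nat.cast_le (α := ℝ)).2 h1
        push_cast [Nat.cast_sub g1] at this
        exact this
      have h2' : ((t : ℝ) - 2 ^ j) * (2 * q) ≤ ((i : ℝ) + 1) * 2 ^ j := by
        have := (Nat.cast_le (α := ℝ)).2 h2.le
        push_cast [Nat.cast_sub g1] at this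
        exact this
      constructor
      · have h3 : (2 : ℝ) ^ j * i / (2 * q) ≤ (t : ℝ) - 2 ^ j := by
          rw [div_le_iff₀ (by positivity)]
          linarith
        linarith
      · have h3 : (t : ℝ) - 2 ^ j ≤ (2 : ℝ) ^ j * (i + 1) / (2 * q) := by
          rw [le_div_iff₀ (by positivity)]
          linarith
        have h4 : (2 : ℝ) ^ j * (i + 1) / (2 * q) = 2 ^ j * i / (2 * q) + 2 ^ j / (2 * q) := by ring
        linarith
    obtain ⟨t₀, ht₀⟩ : ∃ t₀ : ℝ, t₀ = (2 : ℝ) ^ j + 2 ^ j * i / (2 * q) := ⟨_, rfl⟩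
    have ht₀j : (2 : ℝ) ^ j ≤ t₀ := by
      rw [ht₀]
      have : (0 : ℝ) ≤ 2 ^ j * i / (2 * q) := by positivity
      linarith
    rcases (T.filter (fun t => f t = (j, i))).eq_empty_or_nonempty with h0 | ⟨t1, ht1⟩
    · rw [h0, card_empty]
      exact Nat.zero_le _
    refine few_points3 (d := d) (c := c) (t₀ := t₀) (Y := Y) (q := q) hcc hm hE2 hE hb hco hw hq (by linarith) hY1 ?_
      hqY _ ?_
    · intro i'
      have h1 := (hcls t1 ht1).1
      rw [← ht₀] at h1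
      have h2 : (t1 : ℝ) ≤ ((2 * X : ℕ) : ℝ) := by
        exact_mod_cast (hT t1 (mem_filter.1 ht1).1).2.1
      have := hY i'
      linarith
    · intro t ht
      obtain ⟨h1, h2⟩ := hcls t ht
      rw [← ht₀] at h1 h2
      refine ⟨?_, (hT t (mem_filter.1 ht).1).2.2⟩
      rw [abs_of_nonneg (by linarith)]
      have h3 : (2 : ℝ) ^ j / (2 * q) ≤ t₀ / (2 * q) :=
        div_le_div_of_nonneg_right ht₀j (by positivity)
      linarith
  · rw [mul_comm]
    refine Nat.mul_le_mul_right _ ?_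
    have hsub : T.image f ⊆ range (Nat.log 2 X + 2) ×ˢ range (2 * q) := by
      intro p hp
      rw [mem_image] at hp
      obtain ⟨t, ht, rfl⟩ := hp
      rw [hf]
      simp only [mem_product, mem_range]
      obtain ⟨g1, g2⟩ := hlt t ht
      constructor
      · have h1 : Nat.log 2 t ≤ Nat.log 2 (2 * X) := Nat.log_mono_right (hT t ht).2.1
        rw [mul_comm, Nat.log_mul_base (by norm_num) (by omega)] at h1
        omega
      · rw [Nat.div_lt_iff_lt_mul (by positivity)]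
        rw [mul_comm (2 * q)]
        refine Nat.mul_lt_mul_of_pos_right ?_ (by omega)
        rw [pow_succ] at g2
        omega
    refine (Finset.card_le_card hsub).trans ?_
    rw [card_product, card_range, card_range]


end Pool.Agent.Run7.h880.SU
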