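import Mathlib
import Pool.Agent.Run7.h880.FieldG
import Pool.Agent.Run7.h880.SU.Pre

/-!
The number of the large solutions of `c z ^ a - d = m y ^ l`, where `c` and `m` are composed of the primes
of `Q` and `z` is prime to `d`.
-/

set_option autoImplicit false

namespace Pool.Agent.Run7.h880.SU

open NumberField Module Ideal UniqueFactorizationMonoid Pool.Agent.Run7.h880

theorem mem_PP {K : Type} [Field K] [NumberField K] {m : ℕ} (hm : m ≠ 0) {p : Ideal (𝓞 K)} :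
    p ∈ PP K m ↔ Prime p ∧ (m : 𝓞 K) ∈ p := by
  classical
  have hI : span {(m : 𝓞 K)} ≠ ⊥ := by
    rw [Ne, span_singleton_eq_bot]
    exact Nat.cast_ne_zero.2 hm
  unfold PP
  rw [Multiset.mem_toFinset]
  constructor
  · intro h
    refine ⟨prime_of_normalized_factor p h, ?_⟩
    have h1 := dvd_of_mem_normalizedFactors h
    rwa [Ideal.dvd_iff_le, span_singleton_le_iff_mem] at h1
  · rintro ⟨h1, h2⟩
    have h3 : p ∣ span {(m : 𝓞 K)} := by
      rw [Ideal.dvd_iff_le, span_singleton_le_iff_mem]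
      exact h2
    obtain ⟨q, hq, hpq⟩ := exists_mem_normalizedFactors_of_dvd hI h1.irreducible h3
    rw [associated_iff_eq] at hpq
    rwa [hpq]

/-- the number of the prime ideals dividing `m` -/
theorem card_PP_le (K : Type) [Field K] [NumberField K] {m : ℕ} (hm : m ≠ 0) :
    (PP K m).card ≤ m.primeFactors.card * finrank ℚ K := by
  classical
  have hsub : PP K m ⊆ m.primeFactors.biUnion fun r => PP K r := by
    intro p hp
    obtain ⟨h1, h2⟩ := (mem_PP hm).1 hp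
    have hpI : p.IsPrime := Ideal.isPrime_of_prime h1
    have h3 : ((∏ r ∈ m.primeFactors, r ^ m.factorization r : ℕ) : 𝓞 K) ∈ p := by
      have : ∏ r ∈ m.primeFactors, r ^ m.factorization r = m := Nat.prod_factorization_pow_eq_self hm
      rw [this]
      exact h2
    rw [Nat.cast_prod] at h3
    obtain ⟨r, hr, hrp⟩ := (hpI.prod_mem_iff).1 h3
    rw [Nat.cast_pow] at hrp
    rw [Finset.mem_biUnion]
    exact ⟨r, hr, (mem_PP (Nat.prime_of_mem_primeFactors hr).ne_zero).2 ⟨h1, hpI.mem_of_pow_mem _ hrp⟩⟩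
  refine (Finset.card_le_card hsub).trans ?_
  exact Finset.card_biUnion_le_card_mul _ _ _ fun r hr => card_PP K (Nat.prime_of_mem_primeFactors hr)

theorem qu_notMem {K : Type} [Field K] [NumberField K] {Q m : ℕ} (h : QU Q m) {p : Ideal (𝓞 K)}
    (hp : p.IsPrime) (hQ : (Q : 𝓞 K) ∉ p) : (m : 𝓞 K) ∉ p := by
  obtain ⟨k, j, hk⟩ := h
  intro hm
  apply hQ
  refine hp.mem_of_pow_mem k ?_
  have h1 : ((Q : 𝓞 K)) ^ k = (m : 𝓞 K) * (j : 𝓞 K) := by
    exact_mod_cast congrArg (fun z : ℕ => (z : 𝓞 K)) hk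
  rw [h1]
  exact p.mul_mem_right _ hm

theorem ideal_pow3 {K : Type} [Field K] [NumberField K] {a : ℕ} {α : 𝓞 K} {d : ℤ}
    (ha1 : 1 ≤ a) (hα : α ^ a = (d : 𝓞 K)) {x m y : ℤ} {l : ℕ}
    (hxy : x ^ a - d = m * y ^ l) (hxα : (x : 𝓞 K) - α ≠ 0)
    (p : Ideal (𝓞 K)) (hprime : Prime p) (hpa : (a : 𝓞 K) ∉ p) (hpm : (m : 𝓞 K) ∉ p)
    (hco : (x : 𝓞 K) ∈ p → (d : 𝓞 K) ∉ p) :
    l ∣ (normalizedFactors (span {(x : 𝓞 K) - α})).count p := by
  classical
  obtain ⟨h, hh⟩ : ∃ h : 𝓞 K, h = ∑ j ∈ Finset.range a, (x : 𝓞 K) ^ j * α ^ (a - 1 - j) := ⟨_, rfl⟩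
  have e1 : ((x : 𝓞 K) - α) * h = (m : 𝓞 K) * (y : 𝓞 K) ^ l := by
    rw [mul_comm, hh, geom_sum₂_mul, hα]
    exact_mod_cast congrArg (fun z : ℤ => (z : 𝓞 K)) hxy
  have e2 : ((x : 𝓞 K) - α) ∣ h - (a : 𝓞 K) * α ^ (a - 1) := by
    have e3 : (a : 𝓞 K) * α ^ (a - 1) = ∑ j ∈ Finset.range a, α ^ j * α ^ (a - 1 - j) := by
      rw [Finset.sum_congr rfl (g := fun _ => α ^ (a - 1))]
      · rw [Finset.sum_const, Finset.card_range, nsmul_eq_mul]
      · intro j hj
        rw [Finset.mem_range] at hj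
        rw [← pow_add]
        congr 1
        omega
    rw [hh, e3, ← Finset.sum_sub_distrib]
    refine Finset.dvd_sum fun j _ => ?_
    rw [← sub_mul]
    exact Dvd.dvd.mul_right (sub_dvd_pow_sub_pow _ _ _) _
  obtain ⟨g, hg⟩ := e2
  by_cases hpm' : p ∈ normalizedFactors (span {(x : 𝓞 K) - α})
  swap
  · rw [Multiset.count_eq_zero.2 hpm']
    exact dvd_zero _
  have hpI : p.IsPrime := Ideal.isPrime_of_prime hprime
  have hxp : (x : 𝓞 K) - α ∈ p := by
    have h1 := dvd_of_mem_normalizedFactors hpm'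
    rw [Ideal.dvd_iff_le, span_singleton_le_iff_mem] at h1
    exact h1
  have hhp : h ∉ p := by
    intro hhp
    have h1 : (a : 𝓞 K) * α ^ (a - 1) ∈ p := by
      have e4 : (a : 𝓞 K) * α ^ (a - 1) = h - ((x : 𝓞 K) - α) * g := by
        rw [← hg]
        ring
      rw [e4]
      exact p.sub_mem hhp (p.mul_mem_right _ hxp)
    rcases hpI.mem_or_mem h1 with h2 | h2
    · exact hpa h2
    · have h3 := hpI.mem_of_pow_mem _ h2
      have h4 : (d : 𝓞 K) ∈ p := by
        rw [← hα]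
        exact p.pow_mem_of_mem h3 _ ha1
      refine hco ?_ h4
      have e5 : (x : 𝓞 K) = ((x : 𝓞 K) - α) + α := by ring
      rw [e5]
      exact p.add_mem hxp h3
  have hh0 : h ≠ 0 := by
    rintro rfl
    exact hhp p.zero_mem
  have hm0 : (m : 𝓞 K) ≠ 0 := by
    intro h0
    apply hpm
    rw [h0]
    exact p.zero_mem
  have hy0 : (y : 𝓞 K) ^ l ≠ 0 := by
    intro h0
    rw [h0, mul_zero] at e1
    rcases mul_eq_zero.1 e1 with h1 | h1
    · exact hxα h1
    · exact hh0 h1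
  have e5 : span {(x : 𝓞 K) - α} * span {h} = span {(m : 𝓞 K)} * span {(y : 𝓞 K) ^ l} := by
    rw [span_singleton_mul_span_singleton, e1, span_singleton_mul_span_singleton]
  have hI1 : span {(x : 𝓞 K) - α} ≠ ⊥ := by
    rw [Ne, span_singleton_eq_bot]
    exact hxα
  have hI2 : span {h} ≠ ⊥ := by
    rw [Ne, span_singleton_eq_bot]
    exact hh0
  have hI3 : span {(m : 𝓞 K)} ≠ ⊥ := by
    rw [Ne, span_singleton_eq_bot]
    exact hm0
  have hI4 : span {(y : 𝓞 K) ^ l} ≠ ⊥ := by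
    rw [Ne, span_singleton_eq_bot]
    exact hy0
  have e6 := congrArg (fun J => (normalizedFactors J).count p) e5
  rw [normalizedFactors_mul hI1 hI2, normalizedFactors_mul hI3 hI4, ← span_singleton_pow,
    normalizedFactors_pow, Multiset.count_add, Multiset.count_add, Multiset.count_nsmul] at e6
  have key : ∀ z : 𝓞 K, z ∉ p → (normalizedFactors (span {z})).count p = 0 := by
    intro z hz
    rw [Multiset.count_eq_zero]
    intro h1
    have h2 := dvd_of_mem_normalizedFactors h1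
    rw [Ideal.dvd_iff_le, span_singleton_le_iff_mem] at h2
    exact hz h2
  rw [key h hhp, key _ hpm, add_zero, zero_add] at e6
  rw [e6]
  exact dvd_mul_right _ _

open Classical in
/-- the ideals `A` -/
noncomputable def AAP {K : Type} [Field K] [NumberField K] (P : Finset (Ideal (𝓞 K))) (l : ℕ) :
    Finset (Ideal (𝓞 K)) :=
  (P.pi fun _ => Finset.range l).image fun f => ∏ p ∈ P.attach, (p : Ideal (𝓞 K)) ^ f p p.2

theorem card_AAP {K : Type} [Field K] [NumberField K] (P : Finset (Ideal (𝓞 K))) (l : ℕ) :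
    (AAP P l).card ≤ l ^ P.card := by
  classical
  unfold AAP
  refine Finset.card_image_le.trans ?_
  rw [Finset.card_pi]
  simp only [Finset.card_range, Finset.prod_const]
  exact le_rfl

/-- a small element of an ideal -/
theorem small_elt' {K : Type} [Field K] [NumberField K] {a : ℕ} (hK : finrank ℚ K = a)
    {ω : Fin a → 𝓞 K} {D : ℕ} (hω : ∀ (σ : K →ₐ[ℚ] ℂ) (i : Fin a), ‖σ (ω i : K)‖ ≤ D)
    (hli : LinearIndependent ℚ fun i : Fin a => (ω i : K))
    (b : Ideal (𝓞 K)) (hb : b ≠ ⊥) :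
    ∃ β ∈ b, β ≠ 0 ∧ absNorm (span {β}) ≤ (a * D) ^ a * absNorm b := by
  classical
  have ha1 : 1 ≤ a := by
    rw [← hK]
    exact finrank_pos
  obtain ⟨Nb, hNb⟩ : ∃ Nb, Nb = absNorm b := ⟨_, rfl⟩
  have hNb0 : Nb ≠ 0 := by
    rw [hNb, Ne, absNorm_eq_zero_iff]
    exact hb
  obtain ⟨n, hn1, hn2⟩ : ∃ n : ℕ, n ^ a ≤ Nb ∧ Nb < (n + 1) ^ a := by
    refine ⟨Nat.findGreatest (fun n => n ^ a ≤ Nb) Nb, ?_, ?_⟩
    · exact Nat.findGreatest_spec (P := fun n => n ^ a ≤ Nb) (m := 0) (Nat.zero_le _)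
        (by rw [zero_pow (by omega)]; exact Nat.zero_le _)
    · by_contra hcon
      push Not at hcon
      have h1 : Nat.findGreatest (fun n => n ^ a ≤ Nb) Nb + 1 ≤ Nb :=
        le_trans (Nat.le_self_pow (by omega) _) hcon
      have h2 := Nat.le_findGreatest (P := fun n => n ^ a ≤ Nb) h1 hcon
      omega
  have hfin : Finite (𝓞 K ⧸ b) := Ideal.finiteQuotientOfFreeOfNeBot _ hb
  have : Fintype (𝓞 K ⧸ b) := Fintype.ofFinite _
  have hcard : Fintype.card (𝓞 K ⧸ b) = Nb := by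
    rw [hNb, ← Nat.card_eq_fintype_card]
    rfl
  let φ : (Fin a → Fin (n + 1)) → 𝓞 K ⧸ b := fun c =>
    Ideal.Quotient.mk b (∑ i : Fin a, ((c i : ℕ) : 𝓞 K) * ω i)
  obtain ⟨c, c', hcc, hφ⟩ := Fintype.exists_ne_map_eq_of_card_lt φ (by
    rw [hcard, Fintype.card_fun, Fintype.card_fin, Fintype.card_fin]
    exact hn2)
  obtain ⟨e, he⟩ : ∃ e : Fin a → ℤ, e = fun i => ((c i : ℕ) : ℤ) - ((c' i : ℕ) : ℤ) := ⟨_, rfl⟩
  have hmem : ∑ i : Fin a, ((e i : ℤ) : 𝓞 K) * ω i ∈ b := by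
    have h1 := Ideal.Quotient.eq.1 hφ
    have e1 : ∑ i : Fin a, ((c i : ℕ) : 𝓞 K) * ω i -
        ∑ i : Fin a, ((c' i : ℕ) : 𝓞 K) * ω i =
        ∑ i : Fin a, ((e i : ℤ) : 𝓞 K) * ω i := by
      rw [← Finset.sum_sub_distrib]
      refine Finset.sum_congr rfl fun i _ => ?_
      rw [he]
      push_cast
      ring
    rwa [e1] at h1
  refine ⟨_, hmem, ?_, ?_⟩
  · intro h0
    apply hcc
    have h1 : ∑ i : Fin a, (e i : ℚ) • (ω i : K) = 0 := by
      have h2 := congrArg (algebraMap (𝓞 K) K) h0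
      rw [map_sum, map_zero] at h2
      rw [← h2]
      refine Finset.sum_congr rfl fun i _ => ?_
      rw [map_mul, map_intCast, Algebra.smul_def]
      simp
    have h3 := Fintype.linearIndependent_iff.1 hli (fun i => (e i : ℚ)) h1
    funext i
    have h4 := h3 i
    have h5 : e i = 0 := by exact_mod_cast h4
    rw [he] at h5
    apply Fin.ext
    have h6 : ((c i : ℕ) : ℤ) = ((c' i : ℕ) : ℤ) := by
      simp only at h5
      linarith
    exact_mod_cast h6
  · have hσ : ∀ σ : K →ₐ[ℚ] ℂ,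
        ‖σ ((∑ i : Fin a, ((e i : ℤ) : 𝓞 K) * ω i : 𝓞 K) : K)‖ ≤ (n : ℝ) * (a * D) := by
      intro σ
      have e1 : σ ((∑ i : Fin a, ((e i : ℤ) : 𝓞 K) * ω i : 𝓞 K) : K) =
          ∑ i : Fin a, ((e i : ℤ) : ℂ) * (σ (ω i : K)) := by
        have e0 : ((∑ i : Fin a, ((e i : ℤ) : 𝓞 K) * ω i : 𝓞 K) : K) =
            ∑ i : Fin a, ((e i : ℤ) : K) * (ω i : K) := by
          change algebraMap (𝓞 K) K _ = _
          rw [map_sum]
          refine Finset.sum_congr rfl fun i _ => ?_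
          rw [map_mul, map_intCast]
        rw [e0, map_sum]
        refine Finset.sum_congr rfl fun i _ => ?_
        rw [map_mul, map_intCast]
      rw [e1]
      refine (norm_sum_le _ _).trans ?_
      have h1 : ∀ i ∈ (Finset.univ : Finset (Fin a)),
          ‖((e i : ℤ) : ℂ) * (σ (ω i : K))‖ ≤ (n : ℝ) * D := by
        intro i _
        rw [norm_mul, Complex.norm_intCast]
        refine mul_le_mul ?_ (hω σ i) (by positivity) (Nat.cast_nonneg _)
        have h2 : |e i| ≤ (n : ℤ) := by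
          have c1 := (c i).2
          have c2 := (c' i).2
          rw [he]
          simp only
          rw [abs_le]
          constructor <;> omega
        exact_mod_cast h2
      refine (Finset.sum_le_sum h1).trans (le_of_eq ?_)
      rw [Finset.sum_const, Finset.card_univ, Fintype.card_fin, nsmul_eq_mul]
      ring
    have h1 : ((absNorm (span {(∑ i : Fin a, ((e i : ℤ) : 𝓞 K) * ω i : 𝓞 K)}) : ℕ) : ℝ) ≤
        ((n : ℝ) * (a * D)) ^ a := by
      rw [absNorm_span_eq]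
      have hc : Fintype.card (K →ₐ[ℚ] ℂ) = a := by
        rw [← hK]
        exact AlgHom.card ℚ K ℂ
      calc ∏ σ : K →ₐ[ℚ] ℂ, ‖σ ((∑ i : Fin a, ((e i : ℤ) : 𝓞 K) * ω i : 𝓞 K) : K)‖
          ≤ ∏ _σ : K →ₐ[ℚ] ℂ, ((n : ℝ) * (a * D)) :=
            Finset.prod_le_prod (fun σ _ => norm_nonneg _) fun σ _ => hσ σ
        _ = ((n : ℝ) * (a * D)) ^ a := by
            rw [Finset.prod_const, Finset.card_univ, hc]
    have h2 : absNorm (span {(∑ i : Fin a, ((e i : ℤ) : 𝓞 K) * ω i : 𝓞 K)}) ≤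
        (n * (a * D)) ^ a := by exact_mod_cast h1
    refine h2.trans ?_
    rw [mul_pow, mul_comm, ← hNb]
    exact Nat.mul_le_mul_left _ hn1

theorem exists_dat3 {K : Type} [Field K] [NumberField K] {n : ℕ} (hK : finrank ℚ K = n)
    {ω : Fin n → 𝓞 K} {D' : ℕ} (hω : ∀ (σ : K →ₐ[ℚ] ℂ) (i : Fin n), ‖σ (ω i : K)‖ ≤ D')
    (hli : LinearIndependent ℚ fun i : Fin n => (ω i : K))
    {α : 𝓞 K} {D : ℕ} (hαD : ∀ σ : K →ₐ[ℚ] ℂ, ‖σ (α : K)‖ ≤ D)
    {x l : ℕ} (hl : 1 ≤ l) (hxD : D ≤ x) (hxα : (x : 𝓞 K) - α ≠ 0) (P : Finset (Ideal (𝓞 K)))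
    (hP : ∀ p : Ideal (𝓞 K), p ∉ P → l ∣ (normalizedFactors (span {(x : 𝓞 K) - α})).count p) :
    ∃ A ∈ AAP P l, ∃ J β, Dat2 K α n l ((n * D') ^ n) x A J β := by
  classical
  have hI0 : span {(x : 𝓞 K) - α} ≠ ⊥ := by
    rw [Ne, span_singleton_eq_bot]
    exact hxα
  obtain ⟨b, hb⟩ := ideal_mod_pow hI0 P (l := l) hP
  obtain ⟨A, hA⟩ : ∃ A, A = ∏ p ∈ P,
    p ^ ((normalizedFactors (span {(x : 𝓞 K) - α})).count p % l) := ⟨_, rfl⟩
  rw [← hA] at hb
  have hAA : A ∈ AAP P l := by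
    unfold AAP
    rw [Finset.mem_image]
    refine ⟨fun p _ => (normalizedFactors (span {(x : 𝓞 K) - α})).count p % l, ?_, ?_⟩
    · rw [Finset.mem_pi]
      intro p _
      rw [Finset.mem_range]
      exact Nat.mod_lt _ hl
    · rw [hA]
      exact Finset.prod_attach P
        (fun p => p ^ ((normalizedFactors (span {(x : 𝓞 K) - α})).count p % l))
  have hb0 : b ≠ ⊥ := by
    rintro rfl
    rw [← Ideal.zero_eq_bot, zero_pow (by omega), mul_zero, Ideal.zero_eq_bot] at hb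
    exact hI0 hb
  have hA0 : A ≠ ⊥ := by
    rintro rfl
    rw [← Ideal.zero_eq_bot, zero_mul, Ideal.zero_eq_bot] at hb
    exact hI0 hb
  obtain ⟨β, hβb, hβ0, hβn⟩ := small_elt' hK hω hli b hb0
  obtain ⟨J, hJ⟩ : b ∣ span {β} := by
    rw [Ideal.dvd_iff_le, span_singleton_le_iff_mem]
    exact hβb
  have hJ0 : J ≠ ⊥ := by
    rintro rfl
    rw [← Ideal.zero_eq_bot, mul_zero, Ideal.zero_eq_bot, span_singleton_eq_bot] at hJ
    exact hβ0 hJ
  have hNb : 0 < absNorm b := Nat.pos_of_ne_zero (by rw [Ne, absNorm_eq_zero_iff]; exact hb0)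
  have hNA : 0 < absNorm A := Nat.pos_of_ne_zero (by rw [Ne, absNorm_eq_zero_iff]; exact hA0)
  have hNJ : 0 < absNorm J := Nat.pos_of_ne_zero (by rw [Ne, absNorm_eq_zero_iff]; exact hJ0)
  have hN : absNorm (span {β}) = absNorm b * absNorm J := by rw [hJ, map_mul]
  refine ⟨A, hAA, J, β, hβ0, hNJ, ?_, ?_, ?_⟩
  · rw [hN, mul_comm] at hβn
    exact Nat.le_of_mul_le_mul_right hβn hNb
  · rw [hb, hJ, mul_pow]
    ring
  · have h1 : absNorm b ^ l ≤ (2 * x) ^ n := by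
      have h0 : absNorm b ^ l ≤ absNorm (span {(x : 𝓞 K) - α}) := by
        rw [hb, map_mul, map_pow]
        exact Nat.le_mul_of_pos_left _ hNA
      refine h0.trans ?_
      have h2 := absNorm_span_eq K ((x : 𝓞 K) - α)
      have h3 : ((absNorm (span {(x : 𝓞 K) - α}) : ℕ) : ℝ) ≤ ((2 * x : ℕ) : ℝ) ^ n := by
        rw [h2]
        have hc : Fintype.card (K →ₐ[ℚ] ℂ) = n := by
          rw [← hK]
          exact AlgHom.card ℚ K ℂ
        calc ∏ σ : K →ₐ[ℚ] ℂ, ‖σ (((x : 𝓞 K) - α : 𝓞 K) : K)‖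
            ≤ ∏ _σ : K →ₐ[ℚ] ℂ, ((2 * x : ℕ) : ℝ) := by
              refine Finset.prod_le_prod (fun σ _ => norm_nonneg _) fun σ _ => ?_
              have e1 : σ (((x : 𝓞 K) - α : 𝓞 K) : K) = (x : ℂ) - σ (α : K) := by
                have e0 : (((x : 𝓞 K) - α : 𝓞 K) : K) = (x : K) - (α : K) := by
                  change algebraMap (𝓞 K) K _ = _
                  rw [map_sub, map_natCast]
                rw [e0, map_sub, map_natCast]
              rw [e1]
              refine (norm_sub_le _ _).trans ?_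
              have h4 := hαD σ
              have h5 : (D : ℝ) ≤ x := by exact_mod_cast hxD
              rw [Complex.norm_natCast]
              push_cast
              linarith
          _ = ((2 * x : ℕ) : ℝ) ^ n := by rw [Finset.prod_const, Finset.card_univ, hc]
      exact_mod_cast h3
    calc absNorm (span {β}) ^ l ≤ ((n * D') ^ n * absNorm b) ^ l := Nat.pow_le_pow_left hβn _
      _ = ((n * D') ^ n) ^ l * absNorm b ^ l := mul_pow _ _ _
      _ ≤ _ := Nat.mul_le_mul_left _ h1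

theorem dat2_mono {K : Type} [Field K] [NumberField K] {α : 𝓞 K} {n l M M' x : ℕ} {A J : Ideal (𝓞 K)}
    {β : 𝓞 K} (h : Dat2 K α n l M x A J β) (hM : M ≤ M') : Dat2 K α n l M' x A J β :=
  ⟨h.1, h.2.1, h.2.2.1.trans hM, h.2.2.2.1,
    h.2.2.2.2.trans (Nat.mul_le_mul_right _ (Nat.pow_le_pow_left hM _))⟩

/-- all solutions -/
theorem classC3 {K : Type} [Field K] [NumberField K] {n : ℕ} {α : 𝓞 K} {D : ℕ}
    (hK : finrank ℚ K = n) (hn : 2 ≤ n) (hD : 1 ≤ D)
    (hαD : ∀ σ : K →ₐ[ℚ] ℂ, ‖σ (α : K)‖ ≤ D)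
    (hsep : ∀ σ τ : K →ₐ[ℚ] ℂ, σ (α : K) = τ (α : K) → σ = τ) {l : ℕ} (hl : 3 ≤ l) (X : ℕ)
    (S : Finset ℕ) (hS : ∀ x ∈ S, x ≤ X ∧ 8 * (32 * D * (n * D) ^ 2) ^ 3 ≤ x)
    (P : Finset (Ideal (𝓞 K))) {M : ℕ} (hM : M ≤ (n * D) ^ n)
    (hdat : ∀ x ∈ S, ∃ A ∈ AAP P l, ∃ J β, Dat2 K α n l M x A J β) :
    S.card ≤ (l ^ n * (l ^ n * (Nat.log 2 X + 1))) * (l ^ P.card * (2 ^ n * M ^ 2)) := by
  classical
  choose! A hA J β hβ using hdat
  refine (Finset.card_le_mul_card_image (f := fun x => (A x, J x)) S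
    (l ^ n * (l ^ n * (Nat.log 2 X + 1))) ?_).trans ?_
  · rintro ⟨I', I⟩ _
    refine classB2 hK hn hD hαD hsep hl X _ (fun x hx => hS x (Finset.mem_filter.1 hx).1) I' I β ?_
    intro x hx
    obtain ⟨hxS, hfx⟩ := Finset.mem_filter.1 hx
    have := dat2_mono (hβ x hxS) hM
    simp only [Prod.mk.injEq] at hfx
    rwa [hfx.1, hfx.2] at this
  · have h0 : (S.image fun x => (A x, J x)).card ≤ (AAP P l).card * (S.image J).card := by
      rw [← Finset.card_product]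
      refine Finset.card_le_card ?_
      intro t ht
      rw [Finset.mem_image] at ht
      obtain ⟨x, hx, rfl⟩ := ht
      rw [Finset.mem_product]
      exact ⟨hA x hx, Finset.mem_image_of_mem J hx⟩
    have h1 := card_ideals_le' K M (S.image J) (by
      intro I hI
      obtain ⟨x, hx, rfl⟩ := Finset.mem_image.1 hI
      exact ⟨(hβ x hx).2.1, (hβ x hx).2.2.1⟩)
    rw [hK] at h1
    exact Nat.mul_le_mul_left _ (h0.trans (Nat.mul_le_mul (card_AAP P l) h1))

end Pool.Agent.Run7.h880.SU
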