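import Mathlib
import Pool.Agent.Run7.h880.SqG
import Pool.Agent.Run7.h880.SU.Pre

/-!
Gap principles: `x ^ 2 - e ^ 2 = m y ^ l`, and `c x ^ p + δ = c' y ^ p`.
-/

set_option autoImplicit false

namespace Pool.Agent.Run7.h880.SU

open Finset Pool.Agent.Run7.h880

theorem sq_gapS {e l A B w v w' v' x x' : ℕ} (he : 1 ≤ e) (hl : 3 ≤ l) (hx : 2 * e ^ 3 ≤ x)
    (hlt : x < x') (h1 : x - e = A * w ^ l) (h2 : x + e = B * v ^ l)
    (h1' : x' - e = A * w' ^ l) (h2' : x' + e = B * v' ^ l) : 2 * x ≤ x' := by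
  by_contra hcon
  push Not at hcon
  have hee : e ≤ e ^ 3 := Nat.le_self_pow (by norm_num) e
  obtain ⟨f, hf⟩ : ∃ f, x = e + f := ⟨x - e, by omega⟩
  obtain ⟨g, hg⟩ : ∃ g, x' = x + g := ⟨x' - x, by omega⟩
  have hf1 : e ≤ f := by omega
  have hg1 : 1 ≤ g := by omega
  have hgx : g < x := by omega
  have e1 : x - e = f := by omega
  have e1' : x' - e = f + g := by omega
  rw [e1] at h1
  rw [e1'] at h1'
  have hA : 1 ≤ A := by
    rcases Nat.eq_zero_or_pos A with h0 | h0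
    · rw [h0, zero_mul] at h1
      omega
    · exact h0
  have hB : 1 ≤ B := by
    rcases Nat.eq_zero_or_pos B with h0 | h0
    · rw [h0, zero_mul] at h2
      omega
    · exact h0
  obtain ⟨m, hm⟩ : ∃ m, m = w * v' := ⟨_, rfl⟩
  obtain ⟨m', hm'⟩ : ∃ m', m' = v * w' := ⟨_, rfl⟩
  obtain ⟨N, hN⟩ : ∃ N, N = f * (x' + e) := ⟨_, rfl⟩
  have hN1 : N = A * B * m ^ l := by
    rw [hN, h1, h2', hm, mul_pow]
    ring
  have hN2 : N + 2 * e * g = A * B * m' ^ l := by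
    have h3 : (x + e) * (f + g) = A * B * m' ^ l := by
      rw [h2, h1', hm', mul_pow]
      ring
    rw [← h3, hN, hg, hf]
    ring
  have hNpos : 0 < N := by
    rw [hN]
    exact Nat.mul_pos (by omega) (by omega)
  have hm1 : 1 ≤ m := by
    rcases Nat.eq_zero_or_pos m with h0 | h0
    · rw [h0, zero_pow (by omega), mul_zero] at hN1
      omega
    · exact h0
  have hmm : m < m' := by
    by_contra h0
    push Not at h0
    have h3 : A * B * m' ^ l ≤ A * B * m ^ l := Nat.mul_le_mul_left _ (Nat.pow_le_pow_left h0 l)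
    rw [← hN1, ← hN2] at h3
    have : 0 < 2 * e * g := Nat.mul_pos (by omega) (by omega)
    omega
  obtain ⟨k, rfl⟩ : ∃ k, l = k + 1 := ⟨l - 1, by omega⟩
  have h3 := pow_sub_ge hmm k
  have hAB : 1 ≤ A * B := Nat.mul_pos hA hB
  -- `(k + 1) N ≤ 2 e g m`
  have h4 : (k + 1) * N ≤ 2 * e * g * m := by
    have h5 : A * B * (m ^ (k + 1) + (k + 1) * m ^ k) ≤ A * B * m' ^ (k + 1) :=
      Nat.mul_le_mul_left _ h3
    rw [← hN2, mul_add, ← hN1] at h5
    have h6 : A * B * ((k + 1) * m ^ k) ≤ 2 * e * g := by omega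
    calc (k + 1) * N = A * B * ((k + 1) * m ^ k) * m := by
          rw [hN1, pow_succ]
          ring
      _ ≤ 2 * e * g * m := Nat.mul_le_mul_right _ h6
  have h5 : 3 * N ≤ 2 * e * g * m := (Nat.mul_le_mul_right _ hl).trans h4
  have h6 : m ^ 3 ≤ N := by
    calc m ^ 3 ≤ m ^ (k + 1) := Nat.pow_le_pow_right hm1 hl
      _ ≤ A * B * m ^ (k + 1) := Nat.le_mul_of_pos_left _ hAB
      _ = N := hN1.symm
  have h7 : (3 * N) ^ 3 ≤ (2 * e * g) ^ 3 * N := by
    calc (3 * N) ^ 3 ≤ (2 * e * g * m) ^ 3 := Nat.pow_le_pow_left h5 3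
      _ = (2 * e * g) ^ 3 * m ^ 3 := mul_pow _ _ _
      _ ≤ _ := Nat.mul_le_mul_left _ h6
  have h8 : 27 * N ^ 2 ≤ (2 * e * g) ^ 3 := by
    have h9 : 27 * N ^ 2 * N ≤ (2 * e * g) ^ 3 * N := by
      calc 27 * N ^ 2 * N = (3 * N) ^ 3 := by ring
        _ ≤ _ := h7
    exact Nat.le_of_mul_le_mul_right h9 hNpos
  have h9 : (2 * e * g) ^ 3 ≤ 8 * e ^ 3 * x ^ 3 := by
    calc (2 * e * g) ^ 3 = 8 * e ^ 3 * g ^ 3 := by ring
      _ ≤ _ := Nat.mul_le_mul_left _ (Nat.pow_le_pow_left hgx.le 3)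
  have h10 : x ^ 2 ≤ 2 * N := by
    have : x * x ≤ (2 * f) * (x' + e) := Nat.mul_le_mul (by omega) (by omega)
    rw [hN]
    calc x ^ 2 = x * x := sq x
      _ ≤ (2 * f) * (x' + e) := this
      _ = _ := by ring
  have h11 : 27 * x ^ 4 ≤ 32 * e ^ 3 * x ^ 3 := by
    calc 27 * x ^ 4 = 27 * (x ^ 2) ^ 2 := by ring
      _ ≤ 27 * (2 * N) ^ 2 := Nat.mul_le_mul_left _ (Nat.pow_le_pow_left h10 2)
      _ = 4 * (27 * N ^ 2) := by ring
      _ ≤ 4 * (8 * e ^ 3 * x ^ 3) := Nat.mul_le_mul_left _ (h8.trans h9)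
      _ = _ := by ring
  have hx0 : 0 < x := by omega
  have h12 : 27 * x ≤ 32 * e ^ 3 := by
    have h13 : 27 * x * x ^ 3 ≤ 32 * e ^ 3 * x ^ 3 := by
      calc 27 * x * x ^ 3 = 27 * x ^ 4 := by ring
        _ ≤ _ := h11
    exact Nat.le_of_mul_le_mul_right h13 (Nat.pow_pos hx0)
  omega

theorem sq_split {x e m y l Q : ℕ} (he : 1 ≤ e) (hex : e < x) (hQ : 1 ≤ Q) (hl : 1 ≤ l) (hm : QU Q m)
    (h : (x - e) * (x + e) = m * y ^ l)
    (hco : ∀ r : ℕ, r.Prime → r ∣ x - e → r ∣ x + e → r ∣ 2 * Q) :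
    (∃ A ∈ CS (2 * Q) l, ∃ w, x - e = A * w ^ l) ∧ (∃ B ∈ CS (2 * Q) l, ∃ v, x + e = B * v ^ l) := by
  have hm0 : m ≠ 0 := by
    have := hm.pos hQ
    omega
  have h1 : x - e ≠ 0 := by omega
  have h2 : x + e ≠ 0 := by omega
  have hy0 : y ^ l ≠ 0 := by
    intro h0
    rw [h0, mul_zero] at h
    rcases mul_eq_zero.1 h with h3 | h3 <;> omega
  have key : ∀ r : ℕ, r.Prime → ¬ r ∣ 2 * Q → l ∣ (x - e).factorization r ∧ l ∣ (x + e).factorization r := by
    intro r hr hrQ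
    have h3 : ((x - e) * (x + e)).factorization r = (m * y ^ l).factorization r := by rw [h]
    rw [Nat.factorization_mul h1 h2, Nat.factorization_mul hm0 hy0, Nat.factorization_pow] at h3
    simp only [Finsupp.add_apply, Finsupp.smul_apply, smul_eq_mul] at h3
    rw [Nat.factorization_eq_zero_of_not_dvd (n := m) (fun hd =>
      hrQ (Dvd.dvd.mul_left (hm.prime_dvd hr hd) 2)), zero_add] at h3
    by_cases h4 : r ∣ x - e
    · have h5 : ¬ r ∣ x + e := fun h5 => hrQ (hco r hr h4 h5)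
      rw [Nat.factorization_eq_zero_of_not_dvd h5, add_zero] at h3
      rw [Nat.factorization_eq_zero_of_not_dvd h5, h3]
      exact ⟨dvd_mul_right _ _, dvd_zero _⟩
    · rw [Nat.factorization_eq_zero_of_not_dvd h4, zero_add] at h3
      rw [Nat.factorization_eq_zero_of_not_dvd h4, h3]
      exact ⟨dvd_zero _, dvd_mul_right _ _⟩
  exact ⟨split_pow h1 hl (by omega) fun r hr hrQ => (key r hr hrQ).1,
    split_pow h2 hl (by omega) fun r hr hrQ => (key r hr hrQ).2⟩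

theorem count_sqS {e l R X : ℕ} (he : 1 ≤ e) (hl : 3 ≤ l) (S : Finset ℕ)
    (hS : ∀ x ∈ S, x ≤ X ∧ 2 * e ^ 3 ≤ x ∧ (∃ A ∈ CS R l, ∃ w, x - e = A * w ^ l) ∧
      ∃ B ∈ CS R l, ∃ v, x + e = B * v ^ l) :
    S.card ≤ (Nat.log 2 X + 1) * (l ^ R.primeFactors.card * l ^ R.primeFactors.card) := by
  classical
  have h1 : ∀ x ∈ S, ∃ A w B v : ℕ, A ∈ CS R l ∧ B ∈ CS R l ∧ x - e = A * w ^ l ∧ x + e = B * v ^ l := by
    intro x hx
    obtain ⟨-, -, ⟨A, hA, w, hw⟩, B, hB, v, hv⟩ := hS x hx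
    exact ⟨A, w, B, v, hA, hB, hw, hv⟩
  choose! A w B v hA hB hw hv using h1
  refine (Finset.card_le_mul_card_image (f := fun x => (A x, B x)) S (Nat.log 2 X + 1) ?_).trans ?_
  · intro r hr
    refine card_dbl _ X ?_ ?_
    · intro x hx
      have hxS := (Finset.mem_filter.1 hx).1
      have h1 := hS x hxS
      have h2 : 1 ≤ 2 * e ^ 3 := Nat.mul_pos (by norm_num) (Nat.one_le_pow _ _ he)
      exact ⟨h2.trans h1.2.1, h1.1⟩
    · intro x hx x' hx' hlt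
      obtain ⟨hxS, hfx⟩ := Finset.mem_filter.1 hx
      obtain ⟨hx'S, hfx'⟩ := Finset.mem_filter.1 hx'
      have e1 : (A x, B x) = (A x', B x') := by rw [hfx, hfx']
      simp only [Prod.mk.injEq] at e1
      refine sq_gapS (A := A x) (B := B x) (w' := w x') (v' := v x') he hl (hS x hxS).2.1 hlt (hw x hxS) (hv x hxS) ?_ ?_
      · rw [e1.1]
        exact hw x' hx'S
      · rw [e1.2]
        exact hv x' hx'S
  · refine Nat.mul_le_mul_left _ ?_
    have hsub : (S.image fun x => (A x, B x)) ⊆ CS R l ×ˢ CS R l := by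
      intro r hr
      rw [Finset.mem_image] at hr
      obtain ⟨x, hx, rfl⟩ := hr
      rw [Finset.mem_product]
      exact ⟨hA x hx, hB x hx⟩
    refine (Finset.card_le_card hsub).trans ?_
    rw [Finset.card_product]
    exact Nat.mul_le_mul (card_CS R l) (card_CS R l)

/-- equal exponents at least `3` -/
theorem thue_gap {c c' δ p x x' y y' B : ℕ} (hp : 3 ≤ p) (hc : 1 ≤ c) (hδ : 1 ≤ δ)
    (h : c * x ^ p + δ = c' * y ^ p) (h' : c * x' ^ p + δ = c' * y' ^ p)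
    (hx : 1 ≤ x) (hlt : x < x') (hB : y' ≤ B * x') (hbig : δ * B ≤ x) : 2 * x ≤ x' := by
  obtain ⟨k, rfl⟩ : ∃ k, p = k + 1 := ⟨p - 1, by omega⟩
  have hx'0 : 0 < x' := by omega
  have hxp : x ^ (k + 1) < x' ^ (k + 1) := Nat.pow_lt_pow_left hlt (by omega)
  have e1 : c' * (y * x') ^ (k + 1) = (c * x ^ (k + 1) + δ) * x' ^ (k + 1) := by
    rw [h, mul_pow]
    ring
  have e2 : c' * (y' * x) ^ (k + 1) = (c * x' ^ (k + 1) + δ) * x ^ (k + 1) := by
    rw [h', mul_pow]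
    ring
  have e3 : c' * (y' * x) ^ (k + 1) + δ * x' ^ (k + 1) = c' * (y * x') ^ (k + 1) + δ * x ^ (k + 1) := by
    rw [e1, e2]
    ring
  have hlt2 : y' * x < y * x' := by
    by_contra h0
    push Not at h0
    have h1 : c' * (y * x') ^ (k + 1) ≤ c' * (y' * x) ^ (k + 1) :=
      Nat.mul_le_mul_left _ (Nat.pow_le_pow_left h0 _)
    have h2 : δ * x ^ (k + 1) < δ * x' ^ (k + 1) := Nat.mul_lt_mul_of_pos_left hxp hδ
    omega
  have h1 := pow_sub_ge hlt2 k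
  have h2 : c' * ((k + 1) * (y' * x) ^ k) ≤ δ * x' ^ (k + 1) := by
    have h3 : c' * ((y' * x) ^ (k + 1) + (k + 1) * (y' * x) ^ k) ≤ c' * (y * x') ^ (k + 1) :=
      Nat.mul_le_mul_left _ h1
    rw [mul_add] at h3
    omega
  have h3 : (k + 1) * (x' ^ (k + 1) * x ^ (k + 1)) ≤ δ * x' ^ (k + 1) * (y' * x) := by
    calc (k + 1) * (x' ^ (k + 1) * x ^ (k + 1))
        ≤ (k + 1) * ((c * x' ^ (k + 1) + δ) * x ^ (k + 1)) := by
          refine Nat.mul_le_mul_left _ (Nat.mul_le_mul_right _ ?_)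
          have : 1 * x' ^ (k + 1) ≤ c * x' ^ (k + 1) := Nat.mul_le_mul_right _ hc
          omega
      _ = c' * ((k + 1) * (y' * x) ^ k) * (y' * x) := by
          rw [← e2, pow_succ]
          ring
      _ ≤ _ := Nat.mul_le_mul_right _ h2
  have h4 : (k + 1) * x ^ k ≤ δ * y' := by
    have h5 : (x' ^ (k + 1) * x) * ((k + 1) * x ^ k) ≤ (x' ^ (k + 1) * x) * (δ * y') := by
      calc (x' ^ (k + 1) * x) * ((k + 1) * x ^ k) = (k + 1) * (x' ^ (k + 1) * x ^ (k + 1)) := by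
            rw [pow_succ x k]
            ring
        _ ≤ δ * x' ^ (k + 1) * (y' * x) := h3
        _ = _ := by ring
    exact Nat.le_of_mul_le_mul_left h5 (Nat.mul_pos (Nat.pow_pos hx'0) hx)
  have h5 : 3 * x ^ 2 ≤ x * x' := by
    calc 3 * x ^ 2 ≤ (k + 1) * x ^ k := Nat.mul_le_mul hp (Nat.pow_le_pow_right hx (by omega))
      _ ≤ δ * y' := h4
      _ ≤ δ * (B * x') := Nat.mul_le_mul_left _ hB
      _ = (δ * B) * x' := by ring
      _ ≤ x * x' := Nat.mul_le_mul_right _ hbig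
  have h6 : x * (3 * x) ≤ x * x' := by
    calc x * (3 * x) = 3 * x ^ 2 := by ring
      _ ≤ _ := h5
  have := Nat.le_of_mul_le_mul_left h6 hx
  omega

/-- exponents `2` -/
theorem pell_gap {c c' δ x x' y y' : ℕ} (hc : 1 ≤ c) (hc' : 1 ≤ c') (hδ : 1 ≤ δ)
    (h : c * x ^ 2 + δ = c' * y ^ 2) (h' : c * x' ^ 2 + δ = c' * y' ^ 2)
    (hx : 1 ≤ x) (hlt : x < x') (hmx : x % δ = x' % δ) (hmy : y % δ = y' % δ) : 2 * x ≤ x' := by
  have hy : 1 ≤ y := by
    rcases Nat.eq_zero_or_pos y with h0 | h0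
    · rw [h0] at h
      simp at h
      omega
    · exact h0
  have hy' : 1 ≤ y' := by
    rcases Nat.eq_zero_or_pos y' with h0 | h0
    · rw [h0] at h'
      simp at h'
      omega
    · exact h0
  have hZ : (c : ℤ) * x ^ 2 + δ = c' * y ^ 2 := by exact_mod_cast h
  have hZ' : (c : ℤ) * x' ^ 2 + δ = c' * y' ^ 2 := by exact_mod_cast h'
  have c1 : (1 : ℤ) ≤ c := by exact_mod_cast hc
  have c1' : (1 : ℤ) ≤ c' := by exact_mod_cast hc'
  have d1 : (1 : ℤ) ≤ δ := by exact_mod_cast hδ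
  have x1 : (1 : ℤ) ≤ x := by exact_mod_cast hx
  have y1 : (1 : ℤ) ≤ y := by exact_mod_cast hy
  have y1' : (1 : ℤ) ≤ y' := by exact_mod_cast hy'
  have xlt : (x : ℤ) < x' := by exact_mod_cast hlt
  obtain ⟨A, hA⟩ : ∃ A : ℤ, A = c' * y * y' - c * x * x' := ⟨_, rfl⟩
  obtain ⟨B, hB⟩ : ∃ B : ℤ, B = x' * y - x * y' := ⟨_, rfl⟩
  have hAB : A ^ 2 - c * c' * B ^ 2 = δ ^ 2 := by
    have e1 : A ^ 2 - c * c' * B ^ 2 = (c' * y ^ 2 - c * x ^ 2) * (c' * y' ^ 2 - c * x' ^ 2) := by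
      rw [hA, hB]
      ring
    rw [e1, ← hZ, ← hZ']
    ring
  have hid : (x' : ℤ) * δ = x * A + c' * y * B := by
    have e1 : (x : ℤ) * A + c' * y * B = x' * (c' * y ^ 2 - c * x ^ 2) := by
      rw [hA, hB]
      ring
    rw [e1, ← hZ]
    ring
  -- `B > 0`
  have hBpos : 0 < B := by
    have h1 : ((x : ℤ) * y') ^ 2 < (x' * y) ^ 2 := by
      have h2 : (c' : ℤ) * ((x : ℤ) * y') ^ 2 < c' * (x' * y) ^ 2 := by
        have e1 : (c' : ℤ) * ((x : ℤ) * y') ^ 2 = x ^ 2 * (c * x' ^ 2 + δ) := by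
          rw [hZ']
          ring
        have e2 : (c' : ℤ) * ((x' : ℤ) * y) ^ 2 = x' ^ 2 * (c * x ^ 2 + δ) := by
          rw [hZ]
          ring
        rw [e1, e2]
        have h3 : (x : ℤ) ^ 2 < x' ^ 2 := by nlinarith
        nlinarith
      exact lt_of_mul_lt_mul_left h2 (by linarith)
    have h2 := lt_of_pow_lt_pow_left₀ 2 (by positivity) h1
    rw [hB]
    linarith
  have hBd : (δ : ℤ) ∣ B := by
    have hx2 : (x : ℤ) ≡ x' [ZMOD δ] := by
      have : x ≡ x' [MOD δ] := hmx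
      exact_mod_cast (Int.natCast_modEq_iff.2 this)
    have hy2 : (y : ℤ) ≡ y' [ZMOD δ] := by
      have : y ≡ y' [MOD δ] := hmy
      exact_mod_cast (Int.natCast_modEq_iff.2 this)
    have h1 : (x : ℤ) * y' ≡ x' * y [ZMOD δ] := hx2.mul hy2.symm
    rw [hB]
    exact h1.dvd
  have hBge : (δ : ℤ) ≤ B := Int.le_of_dvd hBpos hBd
  have hApos : 0 < A := by
    have h1 : ((c : ℤ) * x * x') ^ 2 < (c' * y * y') ^ 2 := by
      have e1 : ((c : ℤ) * x * x') ^ 2 = (c * x ^ 2) * (c * x' ^ 2) := by ring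
      have e2 : ((c' : ℤ) * y * y') ^ 2 = (c * x ^ 2 + δ) * (c * x' ^ 2 + δ) := by
        rw [hZ, hZ']
        ring
      rw [e1, e2]
      have p1 : (0 : ℤ) < c * x ^ 2 := by positivity
      have p2 : (0 : ℤ) < c * x' ^ 2 := by
        have : (0 : ℤ) < x' := by linarith
        positivity
      nlinarith
    have h2 := lt_of_pow_lt_pow_left₀ 2 (by positivity) h1
    rw [hA]
    linarith
  have hAge : (δ : ℤ) ≤ A := by
    have h1 : (δ : ℤ) ^ 2 ≤ A ^ 2 := by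
      have : (0 : ℤ) ≤ c * c' * B ^ 2 := by positivity
      linarith
    exact (pow_le_pow_iff_left₀ (by linarith) hApos.le (by norm_num)).1 h1
  have hcy : (x : ℤ) ≤ c' * y := by
    have h1 : (x : ℤ) ^ 2 ≤ (c' * y) ^ 2 := by
      have e1 : ((c' : ℤ) * y) ^ 2 = c' * (c * x ^ 2 + δ) := by
        rw [hZ]
        ring
      rw [e1]
      have p1 : (0 : ℤ) < x ^ 2 := by positivity
      have p2 : 1 * (x : ℤ) ^ 2 ≤ c * x ^ 2 := mul_le_mul_of_nonneg_right c1 p1.le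
      have p3 : 1 * ((c : ℤ) * x ^ 2 + δ) ≤ c' * (c * x ^ 2 + δ) :=
        mul_le_mul_of_nonneg_right c1' (by linarith)
      linarith
    exact (pow_le_pow_iff_left₀ (by linarith) (by positivity) (by norm_num)).1 h1
  have h1 : 2 * (x : ℤ) * δ ≤ x' * δ := by
    rw [hid]
    have h2 : (x : ℤ) * δ ≤ x * A := mul_le_mul_of_nonneg_left hAge (by linarith)
    have h3 : (x : ℤ) * δ ≤ (c' * y) * B := mul_le_mul hcy hBge (by linarith) (by positivity)
    linarith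
  have h2 : 2 * (x : ℤ) ≤ x' := le_of_mul_le_mul_right h1 (by linarith)
  exact_mod_cast h2

end Pool.Agent.Run7.h880.SU
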