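import Mathlib
import Pool.Agent.Run7.h880.SU.Fld
import Pool.Agent.Run7.h880.SU.Gap

/-!
The number of the large solutions of `c z ^ a - d = m y ^ l`, where `c` and `m` are composed of the primes
of `Q` and `z` is prime to `d`.
-/

set_option autoImplicit false

namespace Pool.Agent.Run7.h880.SU

open NumberField Module Ideal UniqueFactorizationMonoid Pool.Agent.Run7.h880

/-- independent integers of small size -/
theorem exists_basis {K : Type} [Field K] [NumberField K] {a n : ℕ} (ha : 1 ≤ a) (hna : n ≤ a)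
    {α : 𝓞 K} {d : ℤ} (hd : d ≠ 0) {c Q : ℕ} (hQ : 1 ≤ Q) (hc : QU Q c)
    (hα : α ^ a = ((d * (c : ℤ) ^ (a - 1) : ℤ) : 𝓞 K))
    (hli : LinearIndependent ℚ fun i : Fin n => (α : K) ^ (i : ℕ)) :
    ∃ ω : Fin n → 𝓞 K, (∀ (σ : K →ₐ[ℚ] ℂ) (i : Fin n), ‖σ (ω i : K)‖ ≤ ((d.natAbs * Q : ℕ) : ℝ)) ∧
      LinearIndependent ℚ fun i : Fin n => (ω i : K) := by
  classical
  have hc1 : 1 ≤ c := hc.pos hQ
  have h1 : ∀ i : Fin n, ∃ h g : ℕ, h ≤ Q ^ (a - 1) ∧ g ≠ 0 ∧ c ^ ((a - 1) * i) = h * g ^ a := by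
    intro i
    obtain ⟨h, hh, g, hg⟩ := (hc.pow ((a - 1) * i)).split hQ ha
    refine ⟨h, g, (CS_bound hQ hh).1, ?_, hg⟩
    rintro rfl
    rw [zero_pow (by omega), mul_zero] at hg
    have : 0 < c ^ ((a - 1) * (i : ℕ)) := Nat.pow_pos hc1
    omega
  choose h g hh hg hcg using h1
  have hαK : (α : K) ^ a = ((d * (c : ℤ) ^ (a - 1) : ℤ) : K) := by
    have h2 := congrArg (algebraMap (𝓞 K) K) hα
    rw [map_pow, map_intCast] at h2
    exact h2
  have hw : ∀ i : Fin n, ((α : K) ^ (i : ℕ) / (g i : K)) ^ a = (((d ^ (i : ℕ) * (h i : ℤ) : ℤ)) : K) := by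
    intro i
    have hg0 : (g i : K) ≠ 0 := Nat.cast_ne_zero.2 (hg i)
    have e1 : ((α : K) ^ (i : ℕ)) ^ a = ((α : K) ^ a) ^ (i : ℕ) := by
      rw [← pow_mul, ← pow_mul, mul_comm]
    rw [div_pow, e1, hαK, div_eq_iff (pow_ne_zero _ hg0)]
    have e2 : (c : K) ^ ((a - 1) * (i : ℕ)) = (h i : K) * (g i : K) ^ a := by
      exact_mod_cast congrArg (fun z : ℕ => (z : K)) (hcg i)
    push_cast
    rw [mul_pow, ← pow_mul, e2]
    ring
  have hint : ∀ i : Fin n, IsIntegral ℤ ((α : K) ^ (i : ℕ) / (g i : K)) := by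
    intro i
    refine IsIntegral.of_pow (n := a) ha ?_
    rw [hw i]
    exact isIntegral_algebraMap (R := ℤ) (A := K) (x := d ^ (i : ℕ) * (h i : ℤ))
  have hd1 : 1 ≤ d.natAbs := Int.natAbs_pos.2 hd
  refine ⟨fun i => ⟨(α : K) ^ (i : ℕ) / (g i : K), hint i⟩, ?_, ?_⟩
  · intro σ i
    show ‖σ ((α : K) ^ (i : ℕ) / (g i : K))‖ ≤ _
    have h2 := congrArg σ (hw i)
    rw [map_pow, map_intCast] at h2
    have h3 : ‖σ ((α : K) ^ (i : ℕ) / (g i : K))‖ ^ a ≤ (((d.natAbs * Q : ℕ)) : ℝ) ^ a := by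
      rw [← norm_pow, h2, Complex.norm_intCast]
      have h4 : (d ^ (i : ℕ) * (h i : ℤ)).natAbs ≤ (d.natAbs * Q) ^ a := by
        rw [Int.natAbs_mul, Int.natAbs_pow, Int.natAbs_natCast, mul_pow]
        refine Nat.mul_le_mul (Nat.pow_le_pow_right hd1 (by omega)) ((hh i).trans ?_)
        exact Nat.pow_le_pow_right hQ (by omega)
      have h5 : (((d ^ (i : ℕ) * (h i : ℤ)).natAbs : ℕ) : ℝ) ≤ (((d.natAbs * Q) ^ a : ℕ) : ℝ) := by
        exact_mod_cast h4
      rw [← Int.cast_abs, Int.abs_eq_natAbs, Int.cast_natCast]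
      refine h5.trans (le_of_eq ?_)
      push_cast
      ring
    exact (pow_le_pow_iff_left₀ (norm_nonneg _) (Nat.cast_nonneg _) (by omega)).1 h3
  · have hgu : ∀ i : Fin n, ((g i : ℚ))⁻¹ ≠ 0 := fun i => inv_ne_zero (Nat.cast_ne_zero.2 (hg i))
    have h2 := hli.units_smul (fun i : Fin n => Units.mk0 ((g i : ℚ))⁻¹ (hgu i))
    have h3 : (fun i : Fin n => (α : K) ^ (i : ℕ) / (g i : K)) =
        (fun i : Fin n => Units.mk0 ((g i : ℚ))⁻¹ (hgu i)) • (fun i : Fin n => (α : K) ^ (i : ℕ)) := by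
      funext i
      rw [Pi.smul_apply', Units.smul_def, Units.val_mk0]
      have h5 := Algebra.smul_def (A := K) ((g i : ℚ))⁻¹ ((α : K) ^ (i : ℕ))
      rw [h5, map_inv₀, map_natCast]
      field_simp
    have h4 : LinearIndependent ℚ (fun i : Fin n => (α : K) ^ (i : ℕ) / (g i : K)) := by
      rw [h3]
      exact h2
    exact h4

theorem count_fieldS {K : Type} [Field K] [NumberField K] {a n : ℕ} (ha : a.Prime)
    (hK : finrank ℚ K = n) (hn : 2 ≤ n) (hna : n ≤ a) {α : 𝓞 K} {d : ℤ} (hd : d ≠ 0)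
    {c Q : ℕ} (hQ : 1 ≤ Q) (hc : QU Q c)
    (hα : α ^ a = ((d * (c : ℤ) ^ (a - 1) : ℤ) : 𝓞 K))
    (hsep : ∀ σ τ : K →ₐ[ℚ] ℂ, σ (α : K) = τ (α : K) → σ = τ)
    (hli : LinearIndependent ℚ fun i : Fin n => (α : K) ^ (i : ℕ)) {l : ℕ}
    (hl : 3 ≤ l) (X : ℕ) {D : ℕ} (hD : d.natAbs * c ≤ D) (hDQ : d.natAbs * Q ≤ D) (S : Finset ℕ)
    (hS : ∀ z ∈ S, c * z ≤ X ∧ 8 * (32 * D * (a * D) ^ 2) ^ 3 ≤ z ∧ IsCoprime (z : ℤ) d ∧
      ∃ m y : ℕ, QU Q m ∧ (c : ℤ) * (z : ℤ) ^ a - d = m * (y : ℤ) ^ l) :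
    S.card ≤ (l ^ n * (l ^ n * (Nat.log 2 X + 1))) * (l ^ ((a * Q).primeFactors.card * n) *
      (2 ^ n * ((n * (d.natAbs * Q)) ^ n) ^ 2)) := by
  classical
  have hc1 : 1 ≤ c := hc.pos hQ
  have hd1 : 1 ≤ d.natAbs := Int.natAbs_pos.2 hd
  have hD1 : 1 ≤ D := le_trans (Nat.mul_pos hd1 hc1) hD
  have ha1 : 1 ≤ a := ha.one_lt.le
  have haQ : a * Q ≠ 0 := Nat.mul_ne_zero ha.ne_zero (by omega)
  obtain ⟨ω, hω, hωli⟩ := exists_basis ha1 hna hd hQ hc hα hli
  have hαD : ∀ σ : K →ₐ[ℚ] ℂ, ‖σ (α : K)‖ ≤ D := by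
    intro σ
    have h1 : ((α : K)) ^ a = ((d * (c : ℤ) ^ (a - 1) : ℤ) : K) := by
      have := congrArg (algebraMap (𝓞 K) K) hα
      rw [map_pow, map_intCast] at this
      exact this
    have h2 := congrArg σ h1
    rw [map_pow, map_intCast] at h2
    have h3 : ‖σ (α : K)‖ ^ a ≤ (D : ℝ) ^ a := by
      rw [← norm_pow, h2, Complex.norm_intCast, ← Int.cast_abs, Int.abs_eq_natAbs, Int.cast_natCast]
      have h4 : (d * (c : ℤ) ^ (a - 1)).natAbs ≤ D ^ a := by
        rw [Int.natAbs_mul, Int.natAbs_pow, Int.natAbs_natCast]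
        calc d.natAbs * c ^ (a - 1) ≤ d.natAbs ^ a * c ^ a :=
              Nat.mul_le_mul (Nat.le_self_pow ha.ne_zero _) (Nat.pow_le_pow_right hc1 (by omega))
          _ = (d.natAbs * c) ^ a := (mul_pow _ _ _).symm
          _ ≤ D ^ a := Nat.pow_le_pow_left hD a
      exact_mod_cast h4
    exact (pow_le_pow_iff_left₀ (norm_nonneg _) (Nat.cast_nonneg _) ha.ne_zero).1 h3
  have hbound : 8 * (32 * D * (n * D) ^ 2) ^ 3 ≤ 8 * (32 * D * (a * D) ^ 2) ^ 3 :=
    Nat.mul_le_mul_left _ (Nat.pow_le_pow_left (Nat.mul_le_mul_left _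
      (Nat.pow_le_pow_left (Nat.mul_le_mul_right _ hna) _)) _)
  have hDz : ∀ z ∈ S, D < c * z := by
    intro z hz
    have h1 := (hS z hz).2.1
    have haD : 1 ≤ a * D := Nat.mul_pos ha.pos hD1
    have e1 : D ≤ 32 * D * (a * D) ^ 2 := by
      calc D = D * 1 := (mul_one D).symm
        _ ≤ (32 * D) * (a * D) ^ 2 := Nat.mul_le_mul (by omega) (Nat.one_le_pow _ _ haD)
    have e2 : 32 * D * (a * D) ^ 2 ≤ (32 * D * (a * D) ^ 2) ^ 3 := Nat.le_self_pow (by norm_num) _
    have e3 : z ≤ c * z := Nat.le_mul_of_pos_left _ hc1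
    omega
  have hinj : Function.Injective fun z : ℕ => c * z := by
    intro z z' h
    exact Nat.eq_of_mul_eq_mul_left hc1 h
  have hcardS : S.card = (S.image fun z => c * z).card := (Finset.card_image_of_injective S hinj).symm
  rw [hcardS]
  have hM : (n * (d.natAbs * Q)) ^ n ≤ (n * D) ^ n :=
    Nat.pow_le_pow_left (Nat.mul_le_mul_left _ hDQ) n
  refine (classC3 hK hn hD1 hαD hsep hl X (S.image fun z => c * z) ?_ (PP K (a * Q)) hM ?_).trans ?_
  · intro x hx
    obtain ⟨z, hz, rfl⟩ := Finset.mem_image.1 hx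
    have e3 : z ≤ c * z := Nat.le_mul_of_pos_left _ hc1
    exact ⟨(hS z hz).1, (hbound.trans (hS z hz).2.1).trans e3⟩
  · intro x hx
    obtain ⟨z, hz, rfl⟩ := Finset.mem_image.1 hx
    obtain ⟨h1, h2, h3, m, y, h4, h5⟩ := hS z hz
    have hxα : ((c * z : ℕ) : 𝓞 K) - α ≠ 0 := by
      intro h0
      obtain ⟨σ⟩ : Nonempty (K →ₐ[ℚ] ℂ) := by
        rw [← Fintype.card_pos_iff, AlgHom.card ℚ K ℂ]
        exact finrank_pos
      refine sub_ne hαD (hDz z hz) σ ?_
      have e0 := congrArg (algebraMap (𝓞 K) K) h0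
      rw [map_sub, map_natCast, map_zero] at e0
      have e1 := congrArg σ e0
      rw [map_sub, map_natCast, map_zero] at e1
      exact e1
    refine exists_dat3 hK hω hωli hαD (by omega) (hDz z hz).le hxα _ ?_
    intro p hp
    by_cases hpm : p ∈ normalizedFactors (span {((c * z : ℕ) : 𝓞 K) - α})
    swap
    · rw [Multiset.count_eq_zero.2 hpm]
      exact dvd_zero _
    have hprime := prime_of_normalized_factor p hpm
    have hpI : p.IsPrime := Ideal.isPrime_of_prime hprime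
    rw [mem_PP haQ] at hp
    have hpaQ : ((a * Q : ℕ) : 𝓞 K) ∉ p := fun h => hp ⟨hprime, h⟩
    have hpa : (a : 𝓞 K) ∉ p := by
      intro h
      apply hpaQ
      push_cast
      exact p.mul_mem_right _ h
    have hpQ : (Q : 𝓞 K) ∉ p := by
      intro h
      apply hpaQ
      push_cast
      exact p.mul_mem_left _ h
    have hcp : (c : 𝓞 K) ∉ p := qu_notMem hc hpI hpQ
    have hkey := ideal_pow3 (K := K) (a := a) (α := α) (d := d * (c : ℤ) ^ (a - 1)) ha1 hα
      (x := ((c * z : ℕ) : ℤ)) (m := ((c ^ (a - 1) * m : ℕ) : ℤ)) (y := (y : ℤ)) (l := l) ?_ ?_ p hprime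
      hpa ?_ ?_
    · rwa [Int.cast_natCast] at hkey
    · have e1 : ((c : ℤ) * z) ^ a = c ^ (a - 1) * (c * z ^ a) := by
        rw [mul_pow]
        conv_lhs => rw [show a = (a - 1) + 1 by omega, pow_succ (c : ℤ)]
        rw [show a - 1 + 1 = a by omega]
        ring
      push_cast
      rw [e1]
      linear_combination (c : ℤ) ^ (a - 1) * h5
    · rw [Int.cast_natCast]
      exact hxα
    · rw [Int.cast_natCast]
      exact qu_notMem ((hc.pow _).mul h4) hpI hpQ
    · intro hx hdx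
      rw [Int.cast_natCast] at hx
      push_cast at hx hdx
      have hz' : (z : 𝓞 K) ∈ p := by
        rcases hpI.mem_or_mem hx with h | h
        · exact absurd h hcp
        · exact h
      have hd' : (d : 𝓞 K) ∈ p := by
        rcases hpI.mem_or_mem hdx with h | h
        · exact h
        · exact absurd (hpI.mem_of_pow_mem _ h) hcp
      obtain ⟨r, s, hrs⟩ := h3
      have h7 : (r : 𝓞 K) * (z : 𝓞 K) + (s : 𝓞 K) * (d : 𝓞 K) = 1 := by
        exact_mod_cast congrArg (fun z : ℤ => (z : 𝓞 K)) hrs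
      apply hpI.ne_top
      rw [Ideal.eq_top_iff_one, ← h7]
      exact p.add_mem (p.mul_mem_left _ hz') (p.mul_mem_left _ hd')
  · refine Nat.mul_le_mul_left _ (Nat.mul_le_mul_right _ (Nat.pow_le_pow_right (by omega) ?_))
    rw [← hK]
    exact card_PP_le K haQ

/-- **The number of the large solutions.** -/
theorem count_largeS {a : ℕ} (ha : a.Prime) {d : ℤ} (hd : d ≠ 0) {c Q : ℕ} (hQ : 1 ≤ Q) (hc : QU Q c)
    {l : ℕ} (hl : 3 ≤ l) (X : ℕ) {D : ℕ} (hD : d.natAbs * c ≤ D) (hDQ : d.natAbs * Q ≤ D) (S : Finset ℕ)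
    (hS : ∀ z ∈ S, c * z ≤ X ∧ 8 * (32 * D * (a * D) ^ 2) ^ 3 ≤ z ∧ IsCoprime (z : ℤ) d ∧
      ∃ m y : ℕ, QU Q m ∧ (c : ℤ) * (z : ℤ) ^ a - d = m * (y : ℤ) ^ l) :
    S.card ≤ (l ^ a * (l ^ a * (Nat.log 2 X + 1))) * (l ^ ((a * Q).primeFactors.card * a) *
      (2 ^ a * ((a * (d.natAbs * Q)) ^ a) ^ 2)) := by
  classical
  have hc1 : 1 ≤ c := hc.pos hQ
  have hd1 : 1 ≤ d.natAbs := Int.natAbs_pos.2 hd
  have hD1 : 1 ≤ D := le_trans (Nat.mul_pos hd1 hc1) hD
  have hmono : ∀ n : ℕ, n ≤ a → (l ^ n * (l ^ n * (Nat.log 2 X + 1))) *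
      (l ^ ((a * Q).primeFactors.card * n) * (2 ^ n * ((n * (d.natAbs * Q)) ^ n) ^ 2)) ≤
      (l ^ a * (l ^ a * (Nat.log 2 X + 1))) * (l ^ ((a * Q).primeFactors.card * a) *
      (2 ^ a * ((a * (d.natAbs * Q)) ^ a) ^ 2)) := by
    intro n hn
    have h1 : l ^ n ≤ l ^ a := Nat.pow_le_pow_right (by omega) hn
    have h2 : l ^ ((a * Q).primeFactors.card * n) ≤ l ^ ((a * Q).primeFactors.card * a) :=
      Nat.pow_le_pow_right (by omega) (Nat.mul_le_mul_left _ hn)
    have h3 : 2 ^ n ≤ 2 ^ a := Nat.pow_le_pow_right (by norm_num) hn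
    have h4 : (n * (d.natAbs * Q)) ^ n ≤ (a * (d.natAbs * Q)) ^ a :=
      (Nat.pow_le_pow_left (Nat.mul_le_mul_right _ hn) _).trans
        (Nat.pow_le_pow_right (Nat.mul_pos ha.pos (Nat.mul_pos hd1 hQ)) hn)
    exact Nat.mul_le_mul (Nat.mul_le_mul h1 (Nat.mul_le_mul_right _ h1))
      (Nat.mul_le_mul h2 (Nat.mul_le_mul h3 (Nat.pow_le_pow_left h4 2)))
  by_cases hdp : ∀ e : ℤ, e ^ a ≠ d * (c : ℤ) ^ (a - 1)
  · obtain ⟨K, _, _, α, hK, hα, hsep, hli⟩ := exists_field ha hdp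
    exact (count_fieldS ha hK ha.two_le le_rfl hd hQ hc hα hsep hli hl X hD hDQ S hS).trans
      (hmono a le_rfl)
  · push Not at hdp
    obtain ⟨e, he⟩ := hdp
    have hc0 : (c : ℤ) ≠ 0 := by exact_mod_cast (by omega : c ≠ 0)
    have he0 : e ≠ 0 := by
      rintro rfl
      rw [zero_pow ha.ne_zero] at he
      exact mul_ne_zero hd (pow_ne_zero _ hc0) he.symm
    by_cases ha2 : a = 2
    · subst ha2
      have heq : e ^ 2 = d * c := by
        rw [he]
        norm_num
      obtain ⟨E, hE⟩ : ∃ E, E = e.natAbs := ⟨_, rfl⟩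
      have hE1 : 1 ≤ E := by
        rw [hE]
        exact Int.natAbs_pos.2 he0
      have hEsq : ((E : ℤ)) ^ 2 = d * c := by
        rw [hE, Int.natAbs_sq]
        exact heq
      have hdpos : 0 < d := by
        have h1 : 0 < d * c := by
          rw [← hEsq]
          positivity
        have h2 : (0 : ℤ) < c := by exact_mod_cast hc1
        by_contra h3
        push Not at h3
        have := mul_nonpos_of_nonpos_of_nonneg h3 h2.le
        linarith
      have hED : E ^ 2 = d.natAbs * c := by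
        have h1 : ((d.natAbs : ℕ) : ℤ) = d := Int.natAbs_of_nonneg hdpos.le
        have h2 : ((E ^ 2 : ℕ) : ℤ) = ((d.natAbs * c : ℕ) : ℤ) := by
          push_cast
          rw [hEsq]
          push_cast at h1
          rw [h1]
        exact_mod_cast h2
      have hEle : E ≤ D := (Nat.le_self_pow (by norm_num) E).trans (hED.le.trans hD)
      have hinj : Function.Injective fun z : ℕ => c * z := by
        intro z z' h
        exact Nat.eq_of_mul_eq_mul_left hc1 h
      have hcardS : S.card = (S.image fun z => c * z).card := (Finset.card_image_of_injective S hinj).symm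
      have h1 : S.card ≤ (Nat.log 2 X + 1) * (l ^ (2 * Q).primeFactors.card * l ^ (2 * Q).primeFactors.card) := by
        rw [hcardS]
        refine count_sqS (e := E) hE1 hl _ ?_
        intro x hx
        obtain ⟨z, hz, rfl⟩ := Finset.mem_image.1 hx
        obtain ⟨g1, g2, g3, m, y, g4, g5⟩ := hS z hz
        have hz1 : 2 * D ^ 3 ≤ z := by
          refine le_trans ?_ g2
          have e1 : D ≤ 32 * D * (2 * D) ^ 2 := by
            calc D = D * 1 := (mul_one D).symm
              _ ≤ (32 * D) * (2 * D) ^ 2 := Nat.mul_le_mul (by omega) (Nat.one_le_pow _ _ (by omega))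
          exact Nat.mul_le_mul (by norm_num) (Nat.pow_le_pow_left e1 3)
        have hz2 : 2 * E ^ 3 ≤ c * z :=
          (Nat.mul_le_mul_left _ (Nat.pow_le_pow_left hEle 3)).trans
            (hz1.trans (Nat.le_mul_of_pos_left _ hc1))
        have hEx : E < c * z := by
          have : E ≤ E ^ 3 := Nat.le_self_pow (by norm_num) E
          omega
        have hprod : (c * z - E) * (c * z + E) = (c * m) * y ^ l := by
          have h2 : (((c * z - E) * (c * z + E) : ℕ) : ℤ) = (((c * m) * y ^ l : ℕ) : ℤ) := by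
            push_cast [Nat.cast_sub hEx.le]
            have e1 : ((c : ℤ) * z - E) * (c * z + E) = c * (c * (z : ℤ) ^ 2) - (E : ℤ) ^ 2 := by ring
            rw [e1, hEsq]
            linear_combination (c : ℤ) * g5
          exact_mod_cast h2
        have hsp := sq_split (x := c * z) (e := E) (m := c * m) (y := y) (l := l) (Q := Q) hE1 hEx hQ
          (by omega) (hc.mul g4) hprod (by
            intro r hr h2 h3
            by_cases hr2 : r = 2
            · rw [hr2]
              exact dvd_mul_right 2 Q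
            · have hrodd : Nat.Coprime r 2 := (Nat.coprime_primes hr Nat.prime_two).2 hr2
              have h4 : r ∣ 2 * (c * z) := by
                have h5 := dvd_add h2 h3
                have e1 : c * z - E + (c * z + E) = 2 * (c * z) := by omega
                rwa [e1] at h5
              have h5 : r ∣ c * z := hrodd.dvd_of_dvd_mul_left h4
              have h6 : r ∣ E := (Nat.dvd_add_right h5).1 h3
              refine Dvd.dvd.mul_left ?_ 2
              rcases (hr.dvd_mul).1 h5 with h7 | h7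
              · exact hc.prime_dvd hr h7
              · have h8 : r ∣ d.natAbs * c := by
                  rw [← hED]
                  exact dvd_pow h6 (by norm_num)
                rcases (hr.dvd_mul).1 h8 with h9 | h9
                · exfalso
                  have h10 : (r : ℤ) ∣ 1 := by
                    obtain ⟨u, v, huv⟩ := g3
                    rw [← huv]
                    exact dvd_add (Dvd.dvd.mul_left (by exact_mod_cast h7) _)
                      (Dvd.dvd.mul_left (Int.natCast_dvd.2 h9) _)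
                  have h11 : r ∣ 1 := by exact_mod_cast h10
                  exact hr.one_lt.ne' (Nat.dvd_one.1 h11)
                · exact hc.prime_dvd hr h9)
        exact ⟨g1, hz2, hsp.1, hsp.2⟩
      refine h1.trans ?_
      have hl1 : 1 ≤ l := by omega
      obtain ⟨k, hk⟩ : ∃ k, k = (2 * Q).primeFactors.card := ⟨_, rfl⟩
      rw [← hk]
      have e1 : l ^ k * l ^ k = l ^ (k * 2) := by
        rw [← pow_add]
        congr 1
        ring
      rw [e1]
      have p1 : 1 ≤ l ^ 2 := Nat.one_le_pow _ _ hl1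
      have p2 : 1 ≤ (2 : ℕ) ^ 2 * ((2 * (d.natAbs * Q)) ^ 2) ^ 2 :=
        Nat.mul_pos (by norm_num) (Nat.pow_pos (Nat.pow_pos (Nat.mul_pos (by norm_num)
          (Nat.mul_pos hd1 hQ))))
      calc (Nat.log 2 X + 1) * l ^ (k * 2)
          = (1 * (1 * (Nat.log 2 X + 1))) * (l ^ (k * 2) * 1) := by ring
        _ ≤ (l ^ 2 * (l ^ 2 * (Nat.log 2 X + 1))) * (l ^ (k * 2) * (2 ^ 2 *
              ((2 * (d.natAbs * Q)) ^ 2) ^ 2)) :=
            Nat.mul_le_mul (Nat.mul_le_mul p1 (Nat.mul_le_mul_right _ p1)) (Nat.mul_le_mul_left _ p2)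
    · obtain ⟨K, _, _, α, hK, hα, hsep, hli⟩ := exists_cyc ha he0
      rw [he] at hα
      have ha3 : 3 ≤ a := by
        have := ha.two_le
        omega
      exact (count_fieldS ha hK (by omega) (by omega) hd hQ hc hα hsep hli hl X hD hDQ S hS).trans
        (hmono (a - 1) (by omega))

end Pool.Agent.Run7.h880.SU
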