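import Mathlib
import Pool.Agent.Run7.h880.Pairs
import Pool.Agent.Run7.h880.SU.Fld2
import Pool.Agent.Run7.h880.SU.Det

/-!
The pairs of coprime numbers at distance at most `H` which are perfect powers times numbers composed of the
primes of `Q`: the sets of candidates.
-/

set_option autoImplicit false

namespace Pool.Agent.Run7.h880.SU

open Finset Pool.Agent.Run7.h880

/-- perfect powers times numbers composed of the primes of `Q` -/
def QP (Q n : ℕ) : Prop := ∃ b x e : ℕ, QU Q b ∧ 2 ≤ e ∧ 1 ≤ x ∧ b * x ^ e = n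

theorem QP.prime {Q n : ℕ} (hQ : 1 ≤ Q) (h : QP Q n) :
    ∃ c x p : ℕ, p.Prime ∧ c ∈ CS Q p ∧ 1 ≤ x ∧ c * x ^ p = n := by
  obtain ⟨b, x, e, hb, he, hx, rfl⟩ := h
  obtain ⟨p, hp, k, hk⟩ := Nat.exists_prime_and_dvd (n := e) (by omega)
  obtain ⟨c, hc, g, hg⟩ := hb.split hQ hp.one_lt.le
  refine ⟨c, g * x ^ k, p, hp, hc, ?_, ?_⟩
  · have hg0 : g ≠ 0 := by
      rintro rfl
      rw [zero_pow hp.ne_zero, mul_zero] at hg
      have := hb.pos hQ
      omega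
    exact Nat.mul_pos (Nat.pos_of_ne_zero hg0) (Nat.pow_pos hx)
  · rw [hk, hg, mul_pow, ← pow_mul, mul_comm p k]
    ring

/-- the pairs -/
def PSQ (Q X H : ℕ) : Set (ℕ × ℕ) :=
  {t | t.1 < t.2 ∧ t.2 ≤ X ∧ t.2 ≤ t.1 + H ∧ Nat.Coprime t.1 t.2 ∧ QP Q t.1 ∧ QP Q t.2}

/-- the bound for the heights in the fields -/
def DD (Q H T : ℕ) : ℕ := H * Q ^ T

/-- the bound for the bases -/
def xbQ (Q H T : ℕ) : ℕ := 8 * (32 * DD Q H T * (T * DD Q H T) ^ 2) ^ 3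

open Classical in
noncomputable def F0 (Q X H : ℕ) : Finset (ℕ × ℕ) :=
  ((CS Q (Nat.log 2 X + 1)) ×ˢ range (H + 1)).image (fun t => (t.1, t.1 + t.2)) ∪
  ((CS Q (Nat.log 2 X + 1)) ×ˢ range (H + 1)).image (fun t => (t.1 - t.2, t.1))

open Classical in
/-- equal exponents -/
noncomputable def TS (X p δ c c' : ℕ) : Finset ℕ :=
  (range (X + 1)).filter fun x => 1 ≤ x ∧ ∃ y : ℕ, c * x ^ p + δ = c' * y ^ p

open Classical in
noncomputable def F1 (Q X H : ℕ) : Finset (ℕ × ℕ) :=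
  (((range (Nat.log 2 X + 2)).filter Nat.Prime) ×ˢ Icc 1 H).biUnion fun t =>
    (CS Q t.1 ×ˢ CS Q t.1).biUnion fun s => (TS X t.1 t.2 s.1 s.2).image fun x => (s.1 * x ^ t.1, s.1 * x ^ t.1 + t.2)

open Classical in
noncomputable def F2 (Q H T : ℕ) : Finset (ℕ × ℕ) :=
  (range (T + 1)).biUnion fun a =>
    ((((range (xbQ Q H T)) ×ˢ CS Q a) ×ˢ range (H + 1)).image fun t =>
      (t.1.2 * t.1.1 ^ a, t.1.2 * t.1.1 ^ a + t.2)) ∪
    ((((range (xbQ Q H T)) ×ˢ CS Q a) ×ˢ range (H + 1)).image fun t =>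
      (t.1.2 * t.1.1 ^ a - t.2, t.1.2 * t.1.1 ^ a))

open Classical in
/-- the large solutions of `c z ^ a - d = m y ^ l` -/
noncomputable def SG3 (Q X H T a l c : ℕ) (d : ℤ) : Finset ℕ :=
  (range (X + 1)).filter fun z => c * z ≤ X ∧ 8 * (32 * DD Q H T * (a * DD Q H T) ^ 2) ^ 3 ≤ z ∧
    IsCoprime (z : ℤ) d ∧ ∃ m y : ℕ, QU Q m ∧ (c : ℤ) * (z : ℤ) ^ a - d = m * (y : ℤ) ^ l

open Classical in
noncomputable def F3 (Q X H T : ℕ) : Finset (ℕ × ℕ) :=
  ((((range (T + 1)).filter Nat.Prime) ×ˢ ((range (Nat.log 2 X + 2)).filter fun l => 3 ≤ l)) ×ˢ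
    Icc 1 H).biUnion fun t => (CS Q t.1.1).biUnion fun c =>
      ((SG3 Q X H T t.1.1 t.1.2 c (-(t.2 : ℤ))).image fun z => (c * z ^ t.1.1, c * z ^ t.1.1 + t.2)) ∪
      ((SG3 Q X H T t.1.1 t.1.2 c (t.2 : ℤ)).image fun z => (c * z ^ t.1.1 - t.2, c * z ^ t.1.1))

open Classical in
noncomputable def F4 (Q X H T : ℕ) : Finset (ℕ × ℕ) :=
  ((((range (Nat.log 2 X + 2)) ×ˢ (range (Nat.log 2 X + 2))).filter fun t =>
      t.1.Prime ∧ t.2.Prime ∧ t.1 ≠ t.2 ∧ T < t.1 ∧ T < t.2) ×ˢ Icc 1 H).biUnion fun t =>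
      (CS Q t.1.1 ×ˢ CS Q t.1.2).biUnion fun s =>
      ((range (X + 1)).filter fun u => 1 ≤ u ∧ (∃ x : ℕ, s.1 * x ^ t.1.1 = u) ∧
        ∃ x : ℕ, s.2 * x ^ t.1.2 = u + t.2).image fun u => (u, u + t.2)

theorem coprime_of {u v δ z : ℕ} (hδ : v = u + δ) (hco : Nat.Coprime u v) (hz : z ∣ u ∨ z ∣ v) :
    Nat.Coprime z δ := by
  rw [Nat.coprime_iff_gcd_eq_one]
  by_contra hg
  obtain ⟨r, hr, hrg⟩ := Nat.exists_prime_and_dvd hg
  have h3 : r ∣ z := hrg.trans (Nat.gcd_dvd_left _ _)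
  have h4 : r ∣ δ := hrg.trans (Nat.gcd_dvd_right _ _)
  have h5 : r ∣ u ∧ r ∣ v := by
    rcases hz with h | h
    · have h6 := h3.trans h
      exact ⟨h6, by rw [hδ]; exact dvd_add h6 h4⟩
    · have h6 := h3.trans h
      rw [hδ] at h6
      exact ⟨(Nat.dvd_add_left h4).1 h6, by rw [hδ]; exact h6⟩
  exact hr.one_lt.ne' (Nat.eq_one_of_dvd_coprimes hco h5.1 h5.2)

theorem key3 {Q X H T u v δ a l z w c b : ℕ} (hQ : 1 ≤ Q) (hu : 1 ≤ u) (hvX : v ≤ X)
    (hδ : v = u + δ) (hδ1 : 1 ≤ δ) (hδH : δ ≤ H) (hco : Nat.Coprime u v) (ha : a.Prime) (haT : a ≤ T)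
    (hl : 3 ≤ l) (hlX : l < Nat.log 2 X + 2) (hc : c ∈ CS Q a) (hb : QU Q b)
    (h : (c * z ^ a = u ∧ b * w ^ l = v) ∨ (c * z ^ a = v ∧ b * w ^ l = u)) :
    (u, v) ∈ F2 Q H T ∪ F3 Q X H T := by
  classical
  have hc1 : 1 ≤ c := (CS_bound hQ hc).2.pos hQ
  have hzz : c * z ≤ c * z ^ a := Nat.mul_le_mul_left _ (Nat.le_self_pow ha.ne_zero z)
  have hczX : c * z ≤ X := by
    rcases h with h | h
    · have := h.1
      omega
    · have := h.1
      omega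
  have hzX : z ≤ X := (Nat.le_mul_of_pos_left _ hc1).trans hczX
  rw [mem_union]
  by_cases hz : z < xbQ Q H T
  · left
    unfold F2
    rw [mem_biUnion]
    refine ⟨a, by rw [mem_range]; omega, ?_⟩
    rw [mem_union]
    rcases h with h | h
    · left
      rw [mem_image]
      refine ⟨((z, c), δ), ?_, by simp only [Prod.mk.injEq]; omega⟩
      rw [mem_product, mem_product, mem_range, mem_range]
      exact ⟨⟨hz, hc⟩, by omega⟩
    · right
      rw [mem_image]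
      refine ⟨((z, c), δ), ?_, by simp only [Prod.mk.injEq]; omega⟩
      rw [mem_product, mem_product, mem_range, mem_range]
      exact ⟨⟨hz, hc⟩, by omega⟩
  · right
    push Not at hz
    unfold F3
    rw [mem_biUnion]
    refine ⟨((a, l), δ), ?_, ?_⟩
    · simp only [mem_product, mem_filter, mem_range, mem_Icc]
      exact ⟨⟨⟨by omega, ha⟩, hlX, hl⟩, hδ1, hδH⟩
    rw [mem_biUnion]
    refine ⟨c, hc, ?_⟩
    have hbd : 8 * (32 * DD Q H T * (a * DD Q H T) ^ 2) ^ 3 ≤ z := by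
      refine le_trans ?_ hz
      unfold xbQ
      exact Nat.mul_le_mul_left _ (Nat.pow_le_pow_left (Nat.mul_le_mul_left _
        (Nat.pow_le_pow_left (Nat.mul_le_mul_right _ haT) 2)) 3)
    have hcz : Nat.Coprime z δ := by
      refine coprime_of hδ hco ?_
      have h1 : z ∣ c * z ^ a := Dvd.dvd.mul_left (dvd_pow_self z ha.ne_zero) c
      rcases h with h | h
      · left
        rw [← h.1]
        exact h1
      · right
        rw [← h.1]
        exact h1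
    have hczZ : IsCoprime (z : ℤ) (δ : ℤ) := Nat.isCoprime_iff_coprime.2 hcz
    rw [mem_union]
    rcases h with h | h
    · left
      rw [mem_image]
      refine ⟨z, ?_, by simp only [Prod.mk.injEq]; omega⟩
      unfold SG3
      rw [mem_filter, mem_range]
      refine ⟨by omega, hczX, hbd, hczZ.neg_right, b, w, hb, ?_⟩
      have h1 : ((c * z ^ a : ℕ) : ℤ) = u := by rw [h.1]
      have h2 : ((b * w ^ l : ℕ) : ℤ) = v := by rw [h.2]
      push_cast at h1 h2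
      rw [h1, h2, hδ]
      push_cast
      ring
    · right
      rw [mem_image]
      refine ⟨z, ?_, by simp only [Prod.mk.injEq]; omega⟩
      unfold SG3
      rw [mem_filter, mem_range]
      refine ⟨by omega, hczX, hbd, hczZ, b, w, hb, ?_⟩
      have h1 : ((c * z ^ a : ℕ) : ℤ) = v := by rw [h.1]
      have h2 : ((b * w ^ l : ℕ) : ℤ) = u := by rw [h.2]
      push_cast at h1 h2
      rw [h1, h2, hδ]
      push_cast
      ring

theorem pair_mem3 {Q X H T : ℕ} (hQ : 1 ≤ Q) (hT : 2 ≤ T) {t : ℕ × ℕ} (ht : t ∈ PSQ Q X H) :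
    t ∈ F0 Q X H ∪ (F1 Q X H ∪ ((F2 Q H T ∪ F3 Q X H T) ∪ F4 Q X H T)) := by
  classical
  obtain ⟨u, v⟩ := t
  obtain ⟨huv, hvX, hvH, hco, hu, hv⟩ := ht
  simp only at huv hvX hvH hco hu hv
  obtain ⟨c, x, p, hp, hc, hx, hxu⟩ := hu.prime hQ
  obtain ⟨c', y, q, hq, hc', hy, hyv⟩ := hv.prime hQ
  obtain ⟨δ, hδ⟩ : ∃ δ, v = u + δ := ⟨v - u, by omega⟩
  have hδ1 : 1 ≤ δ := by omega
  have hδH : δ ≤ H := by omega
  have hcQ := (CS_bound hQ hc).2
  have hcQ' := (CS_bound hQ hc').2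
  have hc1 : 1 ≤ c := hcQ.pos hQ
  have hc1' : 1 ≤ c' := hcQ'.pos hQ
  have hu1 : 1 ≤ u := by
    rw [← hxu]
    exact Nat.mul_pos hc1 (Nat.pow_pos hx)
  have hp2 := hp.two_le
  have hq2 := hq.two_le
  rw [mem_union]
  rcases Nat.lt_or_ge 1 x with hx2 | hx1
  swap
  · left
    have e1 : x = 1 := by omega
    rw [e1, one_pow, mul_one] at hxu
    unfold F0
    rw [mem_union]
    left
    rw [mem_image]
    refine ⟨(u, δ), ?_, by rw [hδ]⟩
    rw [mem_product, mem_range]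
    refine ⟨?_, by omega⟩
    rw [← hxu]
    exact hcQ.mem_CS hQ (by omega)
  rcases Nat.lt_or_ge 1 y with hy2 | hy1
  swap
  · left
    have e1 : y = 1 := by omega
    rw [e1, one_pow, mul_one] at hyv
    unfold F0
    rw [mem_union]
    right
    rw [mem_image]
    refine ⟨(v, δ), ?_, by simp only [Prod.mk.injEq, and_true]; omega⟩
    rw [mem_product, mem_range]
    refine ⟨?_, by omega⟩
    rw [← hyv]
    exact hcQ'.mem_CS hQ (by omega)
  right
  have hpX : p < Nat.log 2 X + 2 := exp_lt hx2 (by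
    have : x ^ p ≤ c * x ^ p := Nat.le_mul_of_pos_left _ hc1
    omega)
  have hqX : q < Nat.log 2 X + 2 := exp_lt hy2 (by
    have : y ^ q ≤ c' * y ^ q := Nat.le_mul_of_pos_left _ hc1'
    omega)
  rw [mem_union]
  by_cases hpq : p = q
  · left
    subst hpq
    unfold F1
    rw [mem_biUnion]
    refine ⟨(p, δ), ?_, ?_⟩
    · rw [mem_product, mem_filter, mem_range, mem_Icc]
      exact ⟨⟨hpX, hp⟩, hδ1, hδH⟩
    rw [mem_biUnion]
    refine ⟨(c, c'), by rw [mem_product]; exact ⟨hc, hc'⟩, ?_⟩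
    rw [mem_image]
    refine ⟨x, ?_, by simp only [Prod.mk.injEq]; omega⟩
    unfold TS
    rw [mem_filter, mem_range]
    have h1 : x ≤ x ^ p := Nat.le_self_pow hp.ne_zero x
    have h2 : x ^ p ≤ c * x ^ p := Nat.le_mul_of_pos_left _ hc1
    exact ⟨by omega, hx, y, by simp only; omega⟩
  right
  rw [mem_union]
  by_cases hp3 : p = 2
  · left
    exact key3 hQ hu1 hvX hδ hδ1 hδH hco hp (by omega) (by omega) hqX hc hcQ' (Or.inl ⟨hxu, hyv⟩)
  by_cases hq3 : q = 2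
  · left
    exact key3 hQ hu1 hvX hδ hδ1 hδH hco hq (by omega) (by omega) hpX hc' hcQ (Or.inr ⟨hyv, hxu⟩)
  by_cases hpT : p ≤ T
  · left
    exact key3 hQ hu1 hvX hδ hδ1 hδH hco hp hpT (by omega) hqX hc hcQ' (Or.inl ⟨hxu, hyv⟩)
  by_cases hqT : q ≤ T
  · left
    exact key3 hQ hu1 hvX hδ hδ1 hδH hco hq hqT (by omega) hpX hc' hcQ (Or.inr ⟨hyv, hxu⟩)
  right
  unfold F4
  rw [mem_biUnion]
  refine ⟨((p, q), δ), ?_, ?_⟩
  · rw [mem_product, mem_filter, mem_product, mem_range, mem_range, mem_Icc]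
    exact ⟨⟨⟨hpX, hqX⟩, hp, hq, hpq, not_le.1 hpT, not_le.1 hqT⟩, hδ1, hδH⟩
  rw [mem_biUnion]
  refine ⟨(c, c'), by rw [mem_product]; exact ⟨hc, hc'⟩, ?_⟩
  rw [mem_image]
  refine ⟨u, ?_, by simp only [Prod.mk.injEq, true_and]; omega⟩
  rw [mem_filter, mem_range]
  exact ⟨by omega, hu1, ⟨x, hxu⟩, ⟨y, by simp only; omega⟩⟩

end Pool.Agent.Run7.h880.SU
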