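import Mathlib
import Pool.Agent.Run7.h880.SU.Prs

/-!
The number of the pairs of close coprime perfect powers with coefficients.
-/

set_option autoImplicit false

namespace Pool.Agent.Run7.h880.SU

open Finset Pool.Agent.Run7.h880

section
variable {Q X H T : ℕ}

theorem card_CS_le {R l L : ℕ} (hl : l ≤ L) : (CS R l).card ≤ L ^ R.primeFactors.card :=
  (card_CS R l).trans (Nat.pow_le_pow_left hl _)

theorem DD_le (hQ : 1 ≤ Q) (hT : 2 ≤ T) (hH : 2 ≤ H) : DD Q H T ≤ (T * (H * Q)) ^ T := by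
  unfold DD
  calc H * Q ^ T ≤ H ^ T * Q ^ T := Nat.mul_le_mul_right _ (Nat.le_self_pow (by omega) H)
    _ = (H * Q) ^ T := (mul_pow _ _ _).symm
    _ ≤ (T * (H * Q)) ^ T := Nat.pow_le_pow_left (Nat.le_mul_of_pos_left _ (by omega)) _

theorem P_ge (hQ : 1 ≤ Q) (hT : 2 ≤ T) (hH : 2 ≤ H) : 4 ≤ T * (H * Q) := by
  calc 4 = 2 * (2 * 1) := by norm_num
    _ ≤ T * (H * Q) := Nat.mul_le_mul hT (Nat.mul_le_mul hH hQ)

theorem xbQ_le (hQ : 1 ≤ Q) (hT : 2 ≤ T) (hH : 2 ≤ H) : xbQ Q H T ≤ (T * (H * Q)) ^ (18 * T) := by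
  have hD := DD_le hQ hT hH
  have hP4 := P_ge hQ hT hH
  obtain ⟨P, hP⟩ : ∃ P, P = T * (H * Q) := ⟨_, rfl⟩
  rw [← hP] at hD hP4 ⊢
  have hTP : T ≤ P := by
    rw [hP]
    exact Nat.le_mul_of_pos_right _ (Nat.mul_pos (by omega) hQ)
  unfold xbQ
  have e1 : 32 * DD Q H T * (T * DD Q H T) ^ 2 ≤ P ^ (3 * T + 5) := by
    calc 32 * DD Q H T * (T * DD Q H T) ^ 2 ≤ P ^ 3 * P ^ T * (P * P ^ T) ^ 2 := by
          refine Nat.mul_le_mul (Nat.mul_le_mul ?_ hD) (Nat.pow_le_pow_left (Nat.mul_le_mul hTP hD) 2)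
          calc 32 ≤ 4 ^ 3 := by norm_num
            _ ≤ P ^ 3 := Nat.pow_le_pow_left hP4 3
      _ = P ^ (3 * T + 5) := by ring
  calc 8 * (32 * DD Q H T * (T * DD Q H T) ^ 2) ^ 3 ≤ P ^ 2 * (P ^ (3 * T + 5)) ^ 3 := by
        refine Nat.mul_le_mul ?_ (Nat.pow_le_pow_left e1 3)
        calc 8 ≤ 4 ^ 2 := by norm_num
          _ ≤ P ^ 2 := Nat.pow_le_pow_left hP4 2
    _ = P ^ (9 * T + 17) := by ring
    _ ≤ P ^ (18 * T) := Nat.pow_le_pow_right (by omega) (by omega)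

theorem card_F0 (hQ : 1 ≤ Q) (hT : 2 ≤ T) (hH : 2 ≤ H) :
    (F0 Q X H).card ≤ 2 * ((Nat.log 2 X + 2) ^ Q.primeFactors.card * (T * (H * Q))) := by
  classical
  have h1 : ((CS Q (Nat.log 2 X + 1)) ×ˢ range (H + 1)).card ≤
      (Nat.log 2 X + 2) ^ Q.primeFactors.card * (T * (H * Q)) := by
    rw [card_product, card_range]
    refine Nat.mul_le_mul (card_CS_le (by omega)) ?_
    calc H + 1 ≤ 2 * (H * 1) := by omega
      _ ≤ T * (H * Q) := Nat.mul_le_mul hT (Nat.mul_le_mul_left _ hQ)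
  unfold F0
  refine (card_union_le _ _).trans ?_
  rw [two_mul]
  exact add_le_add (card_image_le.trans h1) (card_image_le.trans h1)

theorem card_TS {p δ c c' : ℕ} (hQ : 1 ≤ Q) (hH : 2 ≤ H) (hp : p.Prime) (hδ1 : 1 ≤ δ) (hδH : δ ≤ H)
    (hc : c ∈ CS Q p) (hc' : c' ∈ CS Q p) :
    (TS X p δ c c').card ≤ Q * H ^ 2 * (Nat.log 2 X + 2) := by
  classical
  have hc1 : 1 ≤ c := (CS_bound hQ hc).2.pos hQ
  have hc1' : 1 ≤ c' := (CS_bound hQ hc').2.pos hQ
  obtain ⟨L, hL⟩ : ∃ L, L = Nat.log 2 X + 1 := ⟨_, rfl⟩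
  have hmem : ∀ x ∈ TS X p δ c c', x ≤ X ∧ 1 ≤ x ∧ ∃ y : ℕ, c * x ^ p + δ = c' * y ^ p := by
    intro x hx
    unfold TS at hx
    rw [mem_filter, mem_range] at hx
    exact ⟨by omega, hx.2⟩
  choose! hX hx1 y hy using hmem
  have hH2 : 1 ≤ H ^ 2 := Nat.one_le_pow _ _ (by omega)
  by_cases hp2 : p = 2
  · subst hp2
    have h1 : (TS X 2 δ c c').card ≤ L * (H * H) := by
      refine (Finset.card_le_mul_card_image (f := fun x => (x % δ, y x % δ)) _ L ?_).trans ?_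
      · intro r hr
        rw [hL]
        refine card_dbl _ X ?_ ?_
        · intro x hx
          have hxS := (Finset.mem_filter.1 hx).1
          exact ⟨hx1 x hxS, hX x hxS⟩
        · intro x hx x' hx' hlt
          obtain ⟨hxS, hfx⟩ := Finset.mem_filter.1 hx
          obtain ⟨hx'S, hfx'⟩ := Finset.mem_filter.1 hx'
          have e1 : (x % δ, y x % δ) = (x' % δ, y x' % δ) := by rw [hfx, hfx']
          simp only [Prod.mk.injEq] at e1
          exact pell_gap hc1 hc1' hδ1 (hy x hxS) (hy x' hx'S) (hx1 x hxS) hlt e1.1 e1.2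
      · refine Nat.mul_le_mul_left _ ?_
        have hsub : ((TS X 2 δ c c').image fun x => (x % δ, y x % δ)) ⊆ range H ×ˢ range H := by
          intro r hr
          rw [Finset.mem_image] at hr
          obtain ⟨x, hx, rfl⟩ := hr
          rw [Finset.mem_product, mem_range, mem_range]
          have h1 : x % δ < δ := Nat.mod_lt _ hδ1
          have h2 : y x % δ < δ := Nat.mod_lt _ hδ1
          exact ⟨by omega, by omega⟩
        refine (Finset.card_le_card hsub).trans ?_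
        rw [Finset.card_product, card_range]
    refine h1.trans ?_
    calc L * (H * H) = (1 * H ^ 2) * L := by ring
      _ ≤ (Q * H ^ 2) * (Nat.log 2 X + 2) := Nat.mul_le_mul (Nat.mul_le_mul_right _ hQ) (by omega)
  · have hp3 : 3 ≤ p := by
      have := hp.two_le
      omega
    obtain ⟨B, hB⟩ : ∃ B, B = Q * H := ⟨_, rfl⟩
    have hyB : ∀ x ∈ TS X p δ c c', y x ≤ B * x := by
      intro x hx
      have h1 := hy x hx
      have hx0 := hx1 x hx
      have h2 : (y x) ^ p ≤ (B * x) ^ p := by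
        calc (y x) ^ p ≤ c' * (y x) ^ p := Nat.le_mul_of_pos_left _ hc1'
          _ = c * x ^ p + δ := h1.symm
          _ ≤ (c + δ) * x ^ p := by
              rw [add_mul]
              have : δ * 1 ≤ δ * x ^ p := Nat.mul_le_mul_left _ (Nat.one_le_pow _ _ hx0)
              omega
          _ ≤ B ^ p * x ^ p := by
              refine Nat.mul_le_mul_right _ ?_
              have h3 : c ≤ Q ^ p := (CS_bound hQ hc).1.trans (Nat.pow_le_pow_right hQ (by omega))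
              have h5 : 1 ≤ Q ^ p := Nat.one_le_pow _ _ hQ
              have h9 : H + 1 ≤ H ^ p := by
                calc H + 1 ≤ 2 * H := by omega
                  _ ≤ H * H := Nat.mul_le_mul_right _ hH
                  _ = H ^ 2 := (sq H).symm
                  _ ≤ H ^ p := Nat.pow_le_pow_right (by omega) (by omega)
              rw [hB, mul_pow]
              calc c + δ ≤ Q ^ p + H := by omega
                _ ≤ Q ^ p * 1 + Q ^ p * H := by
                    have : 1 * H ≤ Q ^ p * H := Nat.mul_le_mul_right _ h5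
                    omega
                _ = Q ^ p * (H + 1) := by ring
                _ ≤ Q ^ p * H ^ p := Nat.mul_le_mul_left _ h9
          _ = (B * x) ^ p := (mul_pow _ _ _).symm
      exact (Nat.pow_le_pow_iff_left hp.ne_zero).1 h2
    have h1 : (TS X p δ c c').card ≤ H * B + L := by
      have h2 : (TS X p δ c c').card = ((TS X p δ c c').filter fun x => x < H * B).card +
          ((TS X p δ c c').filter fun x => ¬ x < H * B).card :=
        (Finset.card_filter_add_card_filter_not _).symm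
      rw [h2]
      refine add_le_add ?_ ?_
      · have h3 : ((TS X p δ c c').filter fun x => x < H * B) ⊆ range (H * B) := by
          intro x hx
          rw [mem_range]
          exact (mem_filter.1 hx).2
        have := card_le_card h3
        rwa [card_range] at this
      · rw [hL]
        refine card_dbl _ X ?_ ?_
        · intro x hx
          have hxS := (Finset.mem_filter.1 hx).1
          exact ⟨hx1 x hxS, hX x hxS⟩
        · intro x hx x' hx' hlt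
          obtain ⟨hxS, hfx⟩ := Finset.mem_filter.1 hx
          obtain ⟨hx'S, hfx'⟩ := Finset.mem_filter.1 hx'
          refine thue_gap (B := B) hp3 hc1 hδ1 (hy x hxS) (hy x' hx'S) (hx1 x hxS) hlt (hyB x' hx'S) ?_
          push Not at hfx
          exact (Nat.mul_le_mul_right _ hδH).trans hfx
    refine h1.trans ?_
    have e1 : H * B = Q * H ^ 2 := by
      rw [hB]
      ring
    rw [e1, show Nat.log 2 X + 2 = L + 1 by omega, mul_add, mul_one]
    have : 1 * L ≤ Q * H ^ 2 * L := Nat.mul_le_mul_right _ (Nat.mul_pos hQ hH2)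
    omega

theorem card_F1 (hQ : 1 ≤ Q) (hT : 2 ≤ T) (hH : 2 ≤ H) :
    (F1 Q X H).card ≤ (T * (H * Q)) ^ 3 * (Nat.log 2 X + 2) ^ (2 * Q.primeFactors.card + 2) := by
  classical
  obtain ⟨P, hP⟩ : ∃ P, P = T * (H * Q) := ⟨_, rfl⟩
  obtain ⟨Λ, hΛ⟩ : ∃ Λ, Λ = Nat.log 2 X + 2 := ⟨_, rfl⟩
  obtain ⟨s, hs⟩ : ∃ s, s = Q.primeFactors.card := ⟨_, rfl⟩
  have hHP : H ≤ P := by
    rw [hP]
    calc H = 1 * (H * 1) := by ring
      _ ≤ T * (H * Q) := Nat.mul_le_mul (by omega) (Nat.mul_le_mul_left _ hQ)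
  have hHQP : H * Q ≤ P := by
    rw [hP]
    exact Nat.le_mul_of_pos_left _ (by omega)
  unfold F1
  rw [← hP, ← hΛ, ← hs]
  refine (card_biUnion_le_card_mul _ _ ((Λ ^ s * Λ ^ s) * (Q * H ^ 2 * Λ)) ?_).trans ?_
  · rintro ⟨p, δ⟩ ht
    rw [mem_product, mem_filter, mem_range, mem_Icc] at ht
    obtain ⟨⟨hpΛ, hp⟩, hδ1, hδH⟩ := ht
    simp only at hpΛ hp hδ1 hδH
    refine (card_biUnion_le_card_mul _ _ (Q * H ^ 2 * Λ) ?_).trans ?_
    · rintro ⟨c, c'⟩ hcc
      rw [mem_product] at hcc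
      refine card_image_le.trans ?_
      rw [hΛ]
      exact card_TS hQ hH hp hδ1 hδH hcc.1 hcc.2
    · refine Nat.mul_le_mul_right _ ?_
      rw [card_product, hs]
      exact Nat.mul_le_mul (card_CS_le hpΛ.le) (card_CS_le hpΛ.le)
  · rw [card_product, Nat.card_Icc, Nat.add_sub_cancel]
    have c1 : ((range Λ).filter Nat.Prime).card ≤ Λ := by
      refine (card_filter_le _ _).trans ?_
      rw [card_range]
    calc ((range Λ).filter Nat.Prime).card * H * ((Λ ^ s * Λ ^ s) * (Q * H ^ 2 * Λ))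
        ≤ Λ * H * ((Λ ^ s * Λ ^ s) * (Q * H ^ 2 * Λ)) :=
          Nat.mul_le_mul_right _ (Nat.mul_le_mul_right _ c1)
      _ = (H * H * (H * Q)) * Λ ^ (2 * s + 2) := by ring
      _ ≤ (P * P * P) * Λ ^ (2 * s + 2) :=
          Nat.mul_le_mul_right _ (Nat.mul_le_mul (Nat.mul_le_mul hHP hHP) hHQP)
      _ = P ^ 3 * Λ ^ (2 * s + 2) := by ring

theorem card_F2 (hQ : 1 ≤ Q) (hT : 2 ≤ T) (hH : 2 ≤ H) :
    (F2 Q H T).card ≤ 2 * (T * (H * Q)) ^ (18 * T + Q.primeFactors.card + 2) := by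
  classical
  have hx := xbQ_le hQ hT hH
  obtain ⟨P, hP⟩ : ∃ P, P = T * (H * Q) := ⟨_, rfl⟩
  obtain ⟨s, hs⟩ : ∃ s, s = Q.primeFactors.card := ⟨_, rfl⟩
  rw [← hP] at hx
  have hHP : H + 1 ≤ P := by
    rw [hP]
    calc H + 1 ≤ 2 * (H * 1) := by omega
      _ ≤ T * (H * Q) := Nat.mul_le_mul hT (Nat.mul_le_mul_left _ hQ)
  have hTP1 : T + 1 ≤ P := by
    rw [hP]
    calc T + 1 ≤ T * (2 * 1) := by omega
      _ ≤ T * (H * Q) := Nat.mul_le_mul_left _ (Nat.mul_le_mul hH hQ)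
  unfold F2
  rw [← hP, ← hs]
  refine (card_biUnion_le_card_mul _ _ (2 * (P ^ (18 * T) * P ^ s * P)) ?_).trans ?_
  · intro a ha
    rw [mem_range] at ha
    have h1 : (((range (xbQ Q H T)) ×ˢ CS Q a) ×ˢ range (H + 1)).card ≤ P ^ (18 * T) * P ^ s * P := by
      rw [card_product, card_product, card_range, card_range, hs]
      exact Nat.mul_le_mul (Nat.mul_le_mul hx (card_CS_le (by omega))) hHP
    refine (card_union_le _ _).trans ?_
    rw [two_mul]
    exact add_le_add (card_image_le.trans h1) (card_image_le.trans h1)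
  · rw [card_range]
    calc (T + 1) * (2 * (P ^ (18 * T) * P ^ s * P)) ≤ P * (2 * (P ^ (18 * T) * P ^ s * P)) :=
          Nat.mul_le_mul_right _ hTP1
      _ = 2 * P ^ (18 * T + s + 2) := by ring

theorem card_SG3 {a l c : ℕ} {d : ℤ} (hQ : 1 ≤ Q) (hT : 2 ≤ T) (ha : a.Prime) (haT : a ≤ T)
    (hl : 3 ≤ l) (hlX : l < Nat.log 2 X + 2) (hc : c ∈ CS Q a) (hd : d ≠ 0) (hdH : d.natAbs ≤ H) :
    (SG3 Q X H T a l c d).card ≤ ((Nat.log 2 X + 2) ^ T * ((Nat.log 2 X + 2) ^ T * (Nat.log 2 X + 2))) *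
      ((Nat.log 2 X + 2) ^ ((Q.primeFactors.card + 1) * T) * (2 ^ T * ((T * (H * Q)) ^ T) ^ 2)) := by
  classical
  have hd1 : 1 ≤ d.natAbs := Int.natAbs_pos.2 hd
  have hcb := CS_bound hQ hc
  have ha1 := ha.two_le
  have hD : d.natAbs * c ≤ DD Q H T := by
    unfold DD
    refine Nat.mul_le_mul hdH (hcb.1.trans (Nat.pow_le_pow_right hQ (by omega)))
  have hDQ : d.natAbs * Q ≤ DD Q H T := by
    unfold DD
    exact Nat.mul_le_mul hdH (Nat.le_self_pow (by omega) Q)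
  have h1 := count_largeS ha hd hQ hcb.2 hl X hD hDQ (SG3 Q X H T a l c d) (by
    intro x hx
    unfold SG3 at hx
    rw [mem_filter] at hx
    exact hx.2)
  refine h1.trans ?_
  have hΛ1 : 1 ≤ Nat.log 2 X + 2 := by omega
  have g1 : l ^ a ≤ (Nat.log 2 X + 2) ^ T :=
    (Nat.pow_le_pow_left hlX.le _).trans (Nat.pow_le_pow_right hΛ1 haT)
  have hpf : (a * Q).primeFactors.card ≤ Q.primeFactors.card + 1 := by
    rw [Nat.primeFactors_mul ha.ne_zero (by omega), Nat.Prime.primeFactors ha]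
    refine (card_union_le _ _).trans ?_
    rw [card_singleton]
    omega
  have g2 : l ^ ((a * Q).primeFactors.card * a) ≤ (Nat.log 2 X + 2) ^ ((Q.primeFactors.card + 1) * T) :=
    (Nat.pow_le_pow_left hlX.le _).trans (Nat.pow_le_pow_right hΛ1 (Nat.mul_le_mul hpf haT))
  have g3 : 2 ^ a ≤ 2 ^ T := Nat.pow_le_pow_right (by norm_num) haT
  have g4 : (a * (d.natAbs * Q)) ^ a ≤ (T * (H * Q)) ^ T := by
    refine (Nat.pow_le_pow_left (Nat.mul_le_mul haT (Nat.mul_le_mul_right _ hdH)) _).trans ?_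
    refine Nat.pow_le_pow_right ?_ haT
    exact Nat.mul_pos (by omega) (Nat.mul_pos (by omega) hQ)
  exact Nat.mul_le_mul (Nat.mul_le_mul g1 (Nat.mul_le_mul g1 (by omega)))
    (Nat.mul_le_mul g2 (Nat.mul_le_mul g3 (Nat.pow_le_pow_left g4 2)))

theorem card_F3 (hQ : 1 ≤ Q) (hT : 2 ≤ T) (hH : 2 ≤ H) :
    (F3 Q X H T).card ≤ (T * (H * Q)) ^ (3 * T + Q.primeFactors.card + 3) *
      (Nat.log 2 X + 2) ^ ((Q.primeFactors.card + 3) * T + 2) := by
  classical
  have hP4 := P_ge hQ hT hH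
  obtain ⟨P, hP⟩ : ∃ P, P = T * (H * Q) := ⟨_, rfl⟩
  obtain ⟨Λ, hΛ⟩ : ∃ Λ, Λ = Nat.log 2 X + 2 := ⟨_, rfl⟩
  obtain ⟨s, hs⟩ : ∃ s, s = Q.primeFactors.card := ⟨_, rfl⟩
  rw [← hP] at hP4
  have hHP : H ≤ P := by
    rw [hP]
    calc H = 1 * (H * 1) := by ring
      _ ≤ T * (H * Q) := Nat.mul_le_mul (by omega) (Nat.mul_le_mul_left _ hQ)
  have hTP1 : T + 1 ≤ P := by
    rw [hP]
    calc T + 1 ≤ T * (2 * 1) := by omega
      _ ≤ T * (H * Q) := Nat.mul_le_mul_left _ (Nat.mul_le_mul hH hQ)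
  obtain ⟨W, hW⟩ : ∃ W, W = (Λ ^ T * (Λ ^ T * Λ)) * (Λ ^ ((s + 1) * T) * (P ^ T * (P ^ T) ^ 2)) := ⟨_, rfl⟩
  unfold F3
  rw [← hP, ← hΛ, ← hs]
  refine (card_biUnion_le_card_mul _ _ (P ^ s * (2 * W)) ?_).trans ?_
  · rintro ⟨⟨a, l⟩, δ⟩ ht
    simp only [mem_product, mem_filter, mem_range, mem_Icc] at ht
    obtain ⟨⟨⟨haT, ha⟩, hlX, hl⟩, hδ1, hδH⟩ := ht
    have haT' : a ≤ T := by omega
    rw [hΛ] at hlX
    refine (card_biUnion_le_card_mul _ _ (2 * W) ?_).trans ?_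
    · intro c hc
      simp only at hc
      have key : ∀ d : ℤ, d ≠ 0 → d.natAbs ≤ H → (SG3 Q X H T a l c d).card ≤ W := by
        intro d hd hdH
        have := card_SG3 (X := X) (H := H) hQ hT ha haT' hl hlX hc hd hdH
        rw [← hP, ← hΛ, ← hs] at this
        refine this.trans ?_
        rw [hW]
        refine Nat.mul_le_mul_left _ (Nat.mul_le_mul_left _ (Nat.mul_le_mul_right _ ?_))
        exact Nat.pow_le_pow_left (by omega) _
      refine (card_union_le _ _).trans ?_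
      rw [two_mul]
      refine add_le_add (card_image_le.trans ?_) (card_image_le.trans ?_)
      · exact key _ (by omega) (by rw [Int.natAbs_neg, Int.natAbs_natCast]; exact hδH)
      · exact key _ (by omega) (by rw [Int.natAbs_natCast]; exact hδH)
    · refine Nat.mul_le_mul_right _ ?_
      rw [hs]
      exact card_CS_le (by simp only; omega)
  · rw [card_product, card_product, Nat.card_Icc, Nat.add_sub_cancel]
    have c1 : ((range (T + 1)).filter Nat.Prime).card ≤ P := by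
      refine (card_filter_le _ _).trans ?_
      rw [card_range]
      exact hTP1
    have c2 : ((range Λ).filter fun l => 3 ≤ l).card ≤ Λ := by
      refine (card_filter_le _ _).trans ?_
      rw [card_range]
    calc ((range (T + 1)).filter Nat.Prime).card * ((range Λ).filter fun l => 3 ≤ l).card * H *
          (P ^ s * (2 * W))
        ≤ P * Λ * P * (P ^ s * (P * W)) := by
          refine Nat.mul_le_mul (Nat.mul_le_mul (Nat.mul_le_mul c1 c2) hHP)
            (Nat.mul_le_mul_left _ (Nat.mul_le_mul_right _ (by omega)))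
      _ = P ^ (3 * T + s + 3) * Λ ^ ((s + 3) * T + 2) := by
          rw [hW]
          ring

theorem card_F4 {E q : ℕ} (hQ : 1 ≤ Q) (hX : 1 ≤ X) (hHX : H ≤ X) (hE : 2 ≤ E) (hET : 4 * (E - 1) ≤ T)
    (hq : 1 ≤ q) (hqY : (3 * ((E : ℝ) ^ 2) ^ 4) * (3 * X) < (q : ℝ) ^ (E ^ 2)) :
    (F4 Q X H T).card ≤ (Nat.log 2 X + 2) ^ (2 * Q.primeFactors.card) *
      (4 * q * H * (Nat.log 2 X + 2) ^ 5) := by
  classical
  obtain ⟨Λ, hΛ⟩ : ∃ Λ, Λ = Nat.log 2 X + 2 := ⟨_, rfl⟩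
  obtain ⟨s, hs⟩ : ∃ s, s = Q.primeFactors.card := ⟨_, rfl⟩
  unfold F4
  rw [← hΛ, ← hs]
  refine (card_biUnion_le_card_mul _ _ ((Λ ^ s * Λ ^ s) * ((Λ * (2 * q)) * (2 * Λ ^ 2))) ?_).trans ?_
  · rintro ⟨⟨p, p'⟩, δ⟩ ht
    simp only [mem_product, mem_filter, mem_range, mem_Icc] at ht
    obtain ⟨⟨⟨hpΛ, hp'Λ⟩, hp, hp', hpp, hpT, hp'T⟩, hδ1, hδH⟩ := ht
    refine (card_biUnion_le_card_mul _ _ ((Λ * (2 * q)) * (2 * Λ ^ 2)) ?_).trans ?_
    swap
    · refine Nat.mul_le_mul_right _ ?_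
      rw [card_product, hs]
      exact Nat.mul_le_mul (card_CS_le hpΛ.le) (card_CS_le hp'Λ.le)
    rintro ⟨c, c'⟩ hcc
    rw [mem_product] at hcc
    simp only at hcc
    have hc1 : 1 ≤ c := (CS_bound hQ hcc.1).2.pos hQ
    have hc1' : 1 ≤ c' := (CS_bound hQ hcc.2).2.pos hQ
    refine card_image_le.trans ?_
    have hb : ∀ i, 2 ≤ ![p, p'] i := by
      intro i
      fin_cases i
      · exact hp.two_le
      · exact hp'.two_le
    have hEb : ∀ i, E ≤ ![p, p'] i := by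
      intro i
      fin_cases i
      · show E ≤ p
        omega
      · show E ≤ p'
        omega
    have hco : Pairwise fun i j => Nat.Coprime (![p, p'] i) (![p, p'] j) := by
      have h1 := (Nat.coprime_primes hp hp').2 hpp
      intro i j hij
      fin_cases i <;> fin_cases j
      · exact absurd rfl hij
      · exact h1
      · exact h1.symm
      · exact absurd rfl hij
    have hw : ∑ i, ((E - 1 : ℕ) : ℝ) / (![p, p'] i : ℕ) ≤ 1 / 2 := by
      have h4 : ∀ r : ℕ, T < r → ((E - 1 : ℕ) : ℝ) / r ≤ 1 / 4 := by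
        intro r hr
        have h5 : ((4 * (E - 1) : ℕ) : ℝ) ≤ r := by
          exact_mod_cast hET.trans hr.le
        have h6 : (0 : ℝ) < r := by
          have : 0 < r := by omega
          exact_mod_cast this
        rw [div_le_iff₀ h6]
        push_cast at h5
        linarith
      rw [Fin.sum_univ_two]
      have h7 := h4 p hpT
      have h8 := h4 p' hp'T
      show ((E - 1 : ℕ) : ℝ) / (p : ℕ) + ((E - 1 : ℕ) : ℝ) / (p' : ℕ) ≤ 1 / 2
      linarith
    have h3 := count_pts3 (X := X) (q := q) (Y := 3 * X) (b := ![p, p']) (d := ![0, δ]) (c := ![c, c'])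
      (E := E) (by
        intro i
        fin_cases i
        · exact hc1
        · exact hc1')
      (by norm_num) hE hEb hb hco hw hX hq
      (by
        have : (1 : ℝ) ≤ X := by exact_mod_cast hX
        linarith) (by
        intro i
        have h5 : ![0, δ] i ≤ X := by
          fin_cases i
          · exact Nat.zero_le _
          · exact hδH.trans hHX
        have h6 : ((![0, δ] i : ℕ) : ℝ) ≤ X := by exact_mod_cast h5
        push_cast
        linarith) hqY ((range (X + 1)).filter fun u => 1 ≤ u ∧ (∃ x : ℕ, c * x ^ p = u) ∧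
          ∃ x : ℕ, c' * x ^ p' = u + δ)
      (by
        intro t ht
        rw [mem_filter, mem_range] at ht
        obtain ⟨h1, h2, ⟨x, hx⟩, ⟨y, hy⟩⟩ := ht
        refine ⟨h2, by omega, ?_⟩
        intro i
        fin_cases i
        · exact ⟨x, hx⟩
        · exact ⟨y, hy⟩)
    refine h3.trans ?_
    rw [← hΛ, Fin.prod_univ_two]
    refine Nat.mul_le_mul_left _ (Nat.mul_le_mul_left _ ?_)
    show p * p' ≤ Λ ^ 2
    rw [pow_two]
    exact Nat.mul_le_mul hpΛ.le hp'Λ.le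
  · rw [card_product, Nat.card_Icc, Nat.add_sub_cancel]
    have c1 : (((range Λ) ×ˢ (range Λ)).filter fun t : ℕ × ℕ =>
        t.1.Prime ∧ t.2.Prime ∧ t.1 ≠ t.2 ∧ T < t.1 ∧ T < t.2).card ≤ Λ * Λ := by
      refine (card_filter_le _ _).trans ?_
      rw [card_product, card_range]
    calc _ ≤ Λ * Λ * H * ((Λ ^ s * Λ ^ s) * (Λ * (2 * q) * (2 * Λ ^ 2))) :=
          Nat.mul_le_mul_right _ (Nat.mul_le_mul_right _ c1)
      _ = Λ ^ (2 * s) * (4 * q * H * Λ ^ 5) := by ring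

/-- **The number of the pairs.** -/
theorem card_pairsQ {E q : ℕ} (hQ : 1 ≤ Q) (hX : 1 ≤ X) (hH : 2 ≤ H) (hHX : H ≤ X) (hT : 2 ≤ T)
    (hE : 2 ≤ E) (hET : 4 * (E - 1) ≤ T)
    (hq : 1 ≤ q) (hqY : (3 * ((E : ℝ) ^ 2) ^ 4) * (3 * X) < (q : ℝ) ^ (E ^ 2)) :
    (PSQ Q X H).Finite ∧ (PSQ Q X H).ncard ≤
      ((T * (H * Q)) ^ (15 * T) * (Nat.log 2 X + 2) ^ (4 * T) +
        4 * q * (H * Q) * (Nat.log 2 X + 2) ^ 5) ^ (2 * (Q.primeFactors.card + 1)) := by
  classical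
  obtain ⟨F, hF⟩ : ∃ F, F = F0 Q X H ∪ (F1 Q X H ∪ ((F2 Q H T ∪ F3 Q X H T) ∪ F4 Q X H T)) := ⟨_, rfl⟩
  have hsub : PSQ Q X H ⊆ (F : Set (ℕ × ℕ)) := by
    intro t ht
    rw [hF, Finset.mem_coe]
    exact pair_mem3 hQ hT ht
  refine ⟨F.finite_toSet.subset hsub, ?_⟩
  have h1 : (PSQ Q X H).ncard ≤ F.card := by
    have := Set.ncard_le_ncard hsub F.finite_toSet
    rwa [Set.ncard_coe_finset] at this
  refine h1.trans ?_
  have g0 := card_F0 (X := X) hQ hT hH
  have g1 := card_F1 (X := X) hQ hT hH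
  have g2 := card_F2 hQ hT hH
  have g3 := card_F3 (X := X) hQ hT hH
  have g4 := card_F4 (T := T) hQ hX hHX hE hET hq hqY
  have hP4 := P_ge hQ hT hH
  obtain ⟨P, hP⟩ : ∃ P, P = T * (H * Q) := ⟨_, rfl⟩
  obtain ⟨Λ, hΛ⟩ : ∃ Λ, Λ = Nat.log 2 X + 2 := ⟨_, rfl⟩
  obtain ⟨s, hs⟩ : ∃ s, s = Q.primeFactors.card := ⟨_, rfl⟩
  rw [← hP, ← hΛ, ← hs] at g0 g1 g3
  rw [← hP, ← hs] at g2
  rw [← hΛ, ← hs] at g4
  rw [← hP] at hP4
  rw [← hP, ← hΛ, ← hs]
  have hP1 : 1 ≤ P := by omega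
  have hΛ1 : 1 ≤ Λ := by omega
  obtain ⟨B, hB⟩ : ∃ B, B = P ^ (15 * T) * Λ ^ (4 * T) := ⟨_, rfl⟩
  obtain ⟨C, hC⟩ : ∃ C, C = 4 * q * (H * Q) * Λ ^ 5 := ⟨_, rfl⟩
  rw [← hB, ← hC]
  have hB1 : 1 ≤ B := by
    rw [hB]
    exact Nat.mul_pos (Nat.pow_pos hP1) (Nat.pow_pos hΛ1)
  obtain ⟨W, hW⟩ : ∃ W, W = P ^ (18 * T + s + 3) * Λ ^ ((s + 3) * T + 2 + 2 * s) := ⟨_, rfl⟩
  have hmono : ∀ i j : ℕ, i ≤ 18 * T + s + 3 → j ≤ (s + 3) * T + 2 + 2 * s → P ^ i * Λ ^ j ≤ W := by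
    intro i j hi hj
    rw [hW]
    exact Nat.mul_le_mul (Nat.pow_le_pow_right hP1 hi) (Nat.pow_le_pow_right hΛ1 hj)
  have t0 : Λ ^ s * P ≤ W := by
    have := hmono 1 s (by omega) (by omega)
    rw [pow_one] at this
    rwa [mul_comm]
  have t1 : P ^ 3 * Λ ^ (2 * s + 2) ≤ W := hmono 3 (2 * s + 2) (by omega) (by omega)
  have t2 : P ^ (18 * T + s + 2) ≤ W := by
    have := hmono (18 * T + s + 2) 0 (by omega) (by omega)
    rwa [pow_zero, mul_one] at this
  have t3 := hmono (3 * T + s + 3) ((s + 3) * T + 2) (by omega) (by omega)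
  have hbig : 6 * W ≤ B ^ (2 * (s + 1)) := by
    have e1 : 6 * W ≤ P ^ (18 * T + s + 5) * Λ ^ ((s + 3) * T + 2 + 2 * s) := by
      calc 6 * W ≤ P ^ 2 * W := Nat.mul_le_mul_right _ (by nlinarith)
        _ = _ := by
            rw [hW]
            ring
    refine e1.trans ?_
    rw [hB, mul_pow, ← pow_mul, ← pow_mul]
    refine Nat.mul_le_mul (Nat.pow_le_pow_right hP1 ?_) (Nat.pow_le_pow_right hΛ1 ?_)
    · nlinarith
    · nlinarith
  have h4 : Λ ^ (2 * s) * (4 * q * H * Λ ^ 5) ≤ B ^ s * C := by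
    refine Nat.mul_le_mul ?_ ?_
    · rw [hB, mul_pow, ← pow_mul Λ]
      calc Λ ^ (2 * s) ≤ Λ ^ (4 * T * s) := Nat.pow_le_pow_right hΛ1 (by nlinarith)
        _ ≤ (P ^ (15 * T)) ^ s * Λ ^ (4 * T * s) :=
            Nat.le_mul_of_pos_left _ (Nat.pow_pos (Nat.pow_pos hP1))
    · rw [hC]
      refine Nat.mul_le_mul_right _ (Nat.mul_le_mul_left _ ?_)
      exact Nat.le_mul_of_pos_right _ hQ
  have hcard : F.card ≤ 6 * W + Λ ^ (2 * s) * (4 * q * H * Λ ^ 5) := by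
    rw [hF]
    have u0 := card_union_le (F0 Q X H) (F1 Q X H ∪ ((F2 Q H T ∪ F3 Q X H T) ∪ F4 Q X H T))
    have u1 := card_union_le (F1 Q X H) ((F2 Q H T ∪ F3 Q X H T) ∪ F4 Q X H T)
    have u2 := card_union_le (F2 Q H T ∪ F3 Q X H T) (F4 Q X H T)
    have u3 := card_union_le (F2 Q H T) (F3 Q X H T)
    omega
  refine hcard.trans ?_
  calc 6 * W + Λ ^ (2 * s) * (4 * q * H * Λ ^ 5) ≤ B ^ (2 * (s + 1)) + B ^ s * C := add_le_add hbig h4
    _ ≤ B ^ (2 * s + 1) * B + B ^ (2 * s + 1) * C := by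
        refine add_le_add (le_of_eq ?_) (Nat.mul_le_mul_right _ (Nat.pow_le_pow_right hB1 (by omega)))
        rw [← pow_succ]
        congr 1
    _ = B ^ (2 * s + 1) * (B + C) := by ring
    _ ≤ (B + C) ^ (2 * s + 1) * (B + C) :=
        Nat.mul_le_mul_right _ (Nat.pow_le_pow_left (Nat.le_add_right _ _) _)
    _ = (B + C) ^ (2 * (s + 1)) := by
        rw [← pow_succ]
        congr 1

end

end Pool.Agent.Run7.h880.SU
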