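import Mathlib
import Pool.Agent.Run7.h880.SU.Fin

/-!
Pairs with a common divisor composed of the primes of `R`.
-/

set_option autoImplicit false

namespace Pool.Agent.Run7.h880.SU

open Finset Pool.Agent.Run7.h880

theorem exists_split {R : ℕ} (x : ℕ) (hx : 1 ≤ x) : ∃ x1 x2 : ℕ, x = x1 * x2 ∧ QU R x1 ∧ Nat.Coprime x2 R := by
  induction x using Nat.strong_induction_on with
  | _ x ih =>
    by_cases hco : Nat.Coprime x R
    · exact ⟨1, x, (one_mul x).symm, ⟨0, one_dvd _⟩, hco⟩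
    · rw [Nat.coprime_iff_gcd_eq_one] at hco
      obtain ⟨r, hr, hd⟩ := Nat.exists_prime_and_dvd hco
      obtain ⟨y, hy⟩ := hd.trans (Nat.gcd_dvd_left x R)
      have hrR := hd.trans (Nat.gcd_dvd_right x R)
      have hy1 : 1 ≤ y := by
        rcases Nat.eq_zero_or_pos y with h0 | h0
        · rw [h0, mul_zero] at hy
          omega
        · exact h0
      have hlt : y < x := by
        rw [hy]
        have := hr.two_le
        nlinarith
      obtain ⟨x1, x2, h1, h2, h3⟩ := ih y hlt hy1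
      refine ⟨r * x1, x2, by rw [hy, h1, mul_assoc], ?_, h3⟩
      exact QU.mul ⟨1, by rw [pow_one]; exact hrR⟩ h2

theorem qp_div {R m G : ℕ} (hR : 1 ≤ R) (hm : QP R m) (hG : G ∣ m) (hGR : QU R G) : QP R (m / G) := by
  obtain ⟨b, x, e, hb, he, hx, rfl⟩ := hm
  obtain ⟨x1, x2, h1, h2, h3⟩ := exists_split (R := R) x hx
  have hG1 : 1 ≤ G := hGR.pos hR
  have hco : Nat.Coprime G (x2 ^ e) := by
    obtain ⟨k, hk⟩ := hGR
    exact Nat.Coprime.coprime_dvd_left hk ((h3.symm.pow_left k).pow_right e)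
  have e1 : b * x ^ e = (b * x1 ^ e) * x2 ^ e := by
    rw [h1, mul_pow]
    ring
  have hd : G ∣ b * x1 ^ e := by
    rw [e1] at hG
    exact hco.dvd_of_dvd_mul_right hG
  obtain ⟨g, hg⟩ := hd
  have hgR : QU R g := by
    obtain ⟨k, hk⟩ := hb.mul (h2.pow e)
    refine ⟨k, dvd_trans ?_ hk⟩
    rw [hg]
    exact dvd_mul_left _ _
  refine ⟨g, x2, e, hgR, he, ?_, ?_⟩
  · rcases Nat.eq_zero_or_pos x2 with h0 | h0
    · rw [h0, mul_zero] at h1
      omega
    · exact h0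
  · rw [e1, hg, mul_assoc, Nat.mul_div_cancel_left _ hG1]

/-- pairs with a common divisor composed of the primes of `R` -/
def PSD (R X H : ℕ) : Set (ℕ × ℕ) :=
  {t | t.1 < t.2 ∧ t.2 ≤ X ∧ t.2 ≤ t.1 + H ∧ QU R (Nat.gcd t.1 t.2) ∧ QP R t.1 ∧ QP R t.2}

theorem card_PSD {R X H : ℕ} (hR : 1 ≤ R) (hX : 1 ≤ X) (hfin : (PSQ R X H).Finite) : (PSD R X H).Finite ∧
    (PSD R X H).ncard ≤ (Nat.log 2 X + 2) ^ R.primeFactors.card * (PSQ R X H).ncard := by
  classical
  have hsub : PSD R X H ⊆ (fun w : ℕ × (ℕ × ℕ) => (w.1 * w.2.1, w.1 * w.2.2)) ''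
      (((CS R (Nat.log 2 X + 1) : Finset ℕ) : Set ℕ) ×ˢ PSQ R X H) := by
    rintro ⟨u, v⟩ ⟨h1, h2, h3, h4, h5, h6⟩
    simp only at h1 h2 h3 h4 h5 h6
    obtain ⟨G, hG⟩ : ∃ G, G = Nat.gcd u v := ⟨_, rfl⟩
    rw [← hG] at h4
    have hG1 : 1 ≤ G := h4.pos hR
    have hGu : G ∣ u := by
      rw [hG]
      exact Nat.gcd_dvd_left _ _
    have hGv : G ∣ v := by
      rw [hG]
      exact Nat.gcd_dvd_right _ _
    have hGX : G ≤ X := (Nat.le_of_dvd (by omega) hGv).trans h2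
    have eu : G * (u / G) = u := Nat.mul_div_cancel' hGu
    have ev : G * (v / G) = v := Nat.mul_div_cancel' hGv
    refine ⟨(G, (u / G, v / G)), ⟨?_, ?_⟩, ?_⟩
    · rw [Finset.mem_coe]
      exact h4.mem_CS hR hGX
    · refine ⟨?_, ?_, ?_, ?_, qp_div hR h5 hGu h4, qp_div hR h6 hGv h4⟩
      · simp only
        by_contra h0
        push Not at h0
        have := Nat.mul_le_mul_left G h0
        omega
      · simp only
        exact (Nat.div_le_self _ _).trans h2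
      · simp only
        by_contra h0
        push Not at h0
        have h7 : G * (u / G + H + 1) ≤ G * (v / G) := Nat.mul_le_mul_left G h0
        rw [mul_add, mul_add, eu, ev] at h7
        have h8 : 1 * H ≤ G * H := Nat.mul_le_mul_right _ hG1
        omega
      · simp only
        rw [hG]
        exact Nat.coprime_div_gcd_div_gcd (by rw [← hG]; exact hG1)
    · simp only [eu, ev]
  have hfin2 : (((CS R (Nat.log 2 X + 1) : Finset ℕ) : Set ℕ) ×ˢ PSQ R X H).Finite :=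
    (Finset.finite_toSet _).prod hfin
  refine ⟨(hfin2.image _).subset hsub, ?_⟩
  refine (Set.ncard_le_ncard hsub (hfin2.image _)).trans ((Set.ncard_image_le hfin2).trans ?_)
  rw [Set.ncard_prod, Set.ncard_coe_finset]
  exact Nat.mul_le_mul_right _ (card_CS_le (by omega))

/-- the size of the bound -/
noncomputable def Mb (R X H : ℕ) : ℝ :=
  (Real.log X) ^ ((1 : ℝ) / 3) * (Real.log (H * R * Real.log X)) ^ ((2 : ℝ) / 3)

theorem Mb_ge {R X H : ℕ} (hR : 1 ≤ R) (hX : 3 ≤ X) (hH : 2 ≤ H) :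
    0.69 * (Real.log X) ^ ((1 : ℝ) / 3) ≤ Mb R X H ∧ 2 / 3 ≤ Mb R X H := by
  have hXR : (3 : ℝ) ≤ X := by exact_mod_cast hX
  have hHR : (2 : ℝ) ≤ H := by exact_mod_cast hH
  have hQR : (1 : ℝ) ≤ R := by exact_mod_cast hR
  have hL1 : 1 ≤ Real.log X := by
    rw [Real.le_log_iff_exp_le (by linarith)]
    have := Real.exp_one_lt_d9
    linarith
  have hl2 : 0.69 < Real.log 2 := by
    have := Real.log_two_gt_d9
    linarith
  have h7 : 0.69 ≤ Real.log (H * R * Real.log X) := by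
    refine hl2.le.trans (Real.log_le_log (by norm_num) ?_)
    calc (2 : ℝ) = 2 * 1 * 1 := by norm_num
      _ ≤ H * R * Real.log X := by
          refine mul_le_mul (mul_le_mul hHR hQR (by norm_num) (by linarith)) hL1 (by norm_num) (by positivity)
  have h8 : (0.69 : ℝ) ≤ (Real.log (H * R * Real.log X)) ^ ((2 : ℝ) / 3) := by
    calc (0.69 : ℝ) = (0.69 : ℝ) ^ (1 : ℝ) := (Real.rpow_one _).symm
      _ ≤ (0.69 : ℝ) ^ ((2 : ℝ) / 3) :=
          Real.rpow_le_rpow_of_exponent_ge (by norm_num) (by norm_num) (by norm_num)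
      _ ≤ _ := Real.rpow_le_rpow (by norm_num) h7 (by norm_num)
  have h9 : (1 : ℝ) ≤ (Real.log X) ^ ((1 : ℝ) / 3) := Real.one_le_rpow hL1 (by norm_num)
  unfold Mb
  constructor
  · rw [mul_comm]
    exact mul_le_mul_of_nonneg_left h8 (by linarith)
  · calc (2 : ℝ) / 3 ≤ 1 * 0.69 := by norm_num
      _ ≤ _ := mul_le_mul h9 h8 (by norm_num) (by positivity)

theorem log_pow_le {R X H : ℕ} (hR : 1 ≤ R) (hX : 3 ≤ X) (hH : 2 ≤ H) (s : ℕ) :
    (((Nat.log 2 X + 2) ^ s : ℕ) : ℝ) ≤ Real.exp (5 * s * Mb R X H) := by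
  have hXR : (3 : ℝ) ≤ X := by exact_mod_cast hX
  obtain ⟨L, hL⟩ : ∃ L, L = Real.log X := ⟨_, rfl⟩
  have hL1 : 1 ≤ L := by
    rw [hL, Real.le_log_iff_exp_le (by linarith)]
    have := Real.exp_one_lt_d9
    linarith
  obtain ⟨a, ha⟩ : ∃ a, a = L ^ ((1 : ℝ) / 3) := ⟨_, rfl⟩
  have ha1 : 1 ≤ a := by
    rw [ha]
    exact Real.one_le_rpow hL1 (by norm_num)
  have ha3 : a ^ 3 = L := by
    rw [ha, ← Real.rpow_natCast, ← Real.rpow_mul (by linarith)]
    norm_num
  have hMb := (Mb_ge (R := R) hR hX hH).1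
  rw [← hL, ← ha] at hMb
  have hΛ : ((Nat.log 2 X + 2 : ℕ) : ℝ) ≤ 4 * L := by
    have h1 : 2 ^ Nat.log 2 X ≤ X := Nat.pow_log_le_self 2 (by omega)
    have h2 : (2 : ℝ) ^ Nat.log 2 X ≤ X := by exact_mod_cast h1
    have h3 : (Nat.log 2 X : ℝ) * Real.log 2 ≤ L := by
      rw [hL, ← Real.log_pow]
      exact Real.log_le_log (by positivity) h2
    have hl2 := Real.log_two_gt_d9
    have h4 : (Nat.log 2 X : ℝ) * 0.69 ≤ L := by
      have : (0 : ℝ) ≤ Nat.log 2 X := Nat.cast_nonneg _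
      nlinarith
    push_cast
    linarith
  have hexp : ((Nat.log 2 X + 2 : ℕ) : ℝ) ≤ Real.exp (3 * a) := by
    refine hΛ.trans ?_
    have h1 : a ≤ Real.exp (a - 1) := by
      have := Real.add_one_le_exp (a - 1)
      linarith
    have h2 : L ≤ Real.exp (3 * (a - 1)) := by
      rw [← ha3]
      have h3 : Real.exp (3 * (a - 1)) = Real.exp (a - 1) ^ 3 := by
        rw [← Real.exp_nat_mul]
        norm_num
      rw [h3]
      exact pow_le_pow_left₀ (by linarith) h1 3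
    have h4 : Real.exp (3 * a) = Real.exp 3 * Real.exp (3 * (a - 1)) := by
      rw [← Real.exp_add]
      congr 1
      ring
    have h5 : (4 : ℝ) ≤ Real.exp 3 := by
      have := Real.add_one_le_exp (3 : ℝ)
      linarith
    rw [h4]
    exact mul_le_mul h5 h2 (by linarith) (Real.exp_pos _).le
  rw [Nat.cast_pow]
  calc ((Nat.log 2 X + 2 : ℕ) : ℝ) ^ s ≤ Real.exp (3 * a) ^ s := pow_le_pow_left₀ (Nat.cast_nonneg _) hexp s
    _ = Real.exp (s * (3 * a)) := by rw [← Real.exp_nat_mul]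
    _ ≤ Real.exp (5 * s * Mb R X H) := by
        refine Real.exp_le_exp.2 ?_
        have hs : (0 : ℝ) ≤ s := Nat.cast_nonneg _
        have h6 : 3 * a ≤ 5 * Mb R X H := by linarith
        calc (s : ℝ) * (3 * a) ≤ s * (5 * Mb R X H) := mul_le_mul_of_nonneg_left h6 hs
          _ = _ := by ring

end Pool.Agent.Run7.h880.SU
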